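import Pool.Agent.H73.RA.Chamber
import Pool.Agent.H74A.Root

set_option autoImplicit false
set_option linter.unusedVariables false
set_option linter.unusedSectionVars false

/-! # Roots of b-functions from chambers -/

namespace Pool.Agent.H73.RA

open MvPolynomial Module MeasureTheory Filter Topology Metric
open Pool.Agent.H628R4.TP (IsBFunction)
open Pool.Agent.H74A (ev Bdry Test)

variable {σ : Type} [Fintype σ] [DecidableEq σ] {ι : Type} [Fintype ι] [DecidableEq ι]

/-- the linear form with coefficients `c` -/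
noncomputable def lf (c : σ → ℝ) : (σ → ℝ) →ₗ[ℝ] ℝ := ∑ j, c j • LinearMap.proj j

theorem lf_apply (c x : σ → ℝ) : lf c x = ∑ j, c j * x j := by
  simp [lf]

/-- the product of the real affine linear forms `(c_i, x) + e_i` with multiplicities `m_i`, as a
polynomial over the complex numbers -/
noncomputable def arrP (c : ι → σ → ℝ) (e : ι → ℝ) (m : ι → ℕ) : MvPolynomial σ ℂ :=
  ∏ i, (∑ j, C ((c i j : ℝ) : ℂ) * X j + C ((e i : ℝ) : ℂ)) ^ m i

theorem ev_arrP (c : ι → σ → ℝ) (e : ι → ℝ) (m : ι → ℕ) (x : σ → ℝ) :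
    ev (arrP c e m) x = ((∏ i, (lf (c i) x + e i) ^ m i : ℝ) : ℂ) := by
  unfold arrP ev
  simp only [map_prod, map_pow, map_add, map_sum, map_mul, eval_C, eval_X, lf_apply]
  push_cast
  rfl

theorem bfun_scale (f : MvPolynomial σ ℂ) (c : ℂ) (hc : c ≠ 0) (b : Polynomial ℂ)
    (h : IsBFunction f b) : IsBFunction (C c * f) b := by
  obtain ⟨P, hP⟩ := h
  refine ⟨P.mapRange (fun Q => c⁻¹ • Q) (smul_zero _), fun s => ?_⟩
  rw [Finsupp.sum_mapRange_index (by simp), mul_pow, ← mul_assoc, mul_comm (C _) (C c ^ s),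
    mul_assoc, hP s, Finsupp.sum, Finsupp.sum, Finset.mul_sum]
  refine Finset.sum_congr rfl fun m _ => ?_
  have e1 : (C c * f) ^ (s + 1) = c ^ (s + 1) • f ^ (s + 1) := by
    rw [mul_pow, ← C_pow, smul_eq_C_mul]
  rw [e1, Subalgebra.coe_smul, LinearMap.smul_apply, map_smul, ← C_pow, ← smul_eq_C_mul,
    smul_smul, smul_smul, smul_smul]
  congr 1
  rw [pow_succ]
  field_simp

/-- a bump function at `p` -/
theorem exists_bump (p : σ → ℝ) {R : ℝ} (hR : 0 < R) : ∃ ρ : (σ → ℝ) → ℝ, (∀ x, 0 ≤ ρ x) ∧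
    (∀ x, ρ x ≤ 1) ∧ (∀ x ∈ closedBall p (R / 2), ρ x = 1) ∧
    Test (closedBall p R) (fun x => (ρ x : ℂ)) := by
  set b : ContDiffBump p := ⟨R / 2, 3 * R / 4, by positivity, by linarith⟩ with hb
  refine ⟨b, fun x => ContDiffBump.nonneg b, fun x => ContDiffBump.le_one b, ?_, ?_, ?_⟩
  · intro x hx
    exact b.one_of_mem_closedBall hx
  · exact Complex.ofRealCLM.contDiff.comp b.contDiff
  · refine closure_minimal ?_ isClosed_closedBall
    intro v hv
    rw [Function.mem_support] at hv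
    rw [mem_closedBall]
    by_contra hcon
    push Not at hcon
    refine hv ?_
    rw [b.zero_of_le_dist (by change (3 * R / 4 : ℝ) ≤ _; linarith)]
    simp

/-- the region -/
def Om (c : ι → σ → ℝ) (e : ι → ℝ) (sg : ι → ℝ) : Set (σ → ℝ) :=
  {x | ∀ i, 0 < sg i * (lf (c i) x + e i)}

theorem cont_f (c : σ → ℝ) (e : ℝ) : Continuous fun x : σ → ℝ => lf c x + e :=
  (LinearMap.continuous_of_finiteDimensional (lf c)).add continuous_const

theorem Om_open (c : ι → σ → ℝ) (e : ι → ℝ) (sg : ι → ℝ) : IsOpen (Om c e sg) := by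
  have h : Om c e sg = ⋂ i, {x | 0 < sg i * (lf (c i) x + e i)} := by
    ext x
    simp [Om]
  rw [h]
  exact isOpen_iInter_of_finite fun i =>
    isOpen_lt continuous_const (continuous_const.mul (cont_f _ _))

/-- **Roots from light chambers.** -/
theorem root_at (c : ι → σ → ℝ) (e : ι → ℝ) (m : ι → ℕ) (hm : ∀ i, 0 < m i) (p v0 : σ → ℝ)
    (A : Finset ι) (hA : ∀ i, i ∈ A ↔ lf (c i) p + e i = 0) (hAn : A.Nonempty)
    (h0 : ∀ i ∈ A, lf (c i) v0 ≠ 0)
    (hgood : ∀ x, (∀ i ∈ A, 0 ≤ lf (c i) v0 * lf (c i) x) → (∃ i ∈ A, lf (c i) x ≠ 0) →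
      ∀ B, B ⊆ A.filter (fun i => lf (c i) x = 0) → B.Nonempty →
        cdm (fun i => lf (c i)) A * ∑ i ∈ B, (m i : ℝ) ≤
          cdm (fun i => lf (c i)) B * ∑ i ∈ A, (m i : ℝ))
    (b : Polynomial ℂ) (hb : IsBFunction (arrP c e m) b) :
    b.eval ((-((cdm (fun i => lf (c i)) A) / ∑ i ∈ A, (m i : ℝ)) : ℝ) : ℂ) = 0 := by
  classical
  set l : ι → (σ → ℝ) →ₗ[ℝ] ℝ := fun i => lf (c i) with hl
  have hNB : ∀ B : Finset ι, B.Nonempty → 0 < ∑ i ∈ B, (m i : ℝ) := fun B hB =>
    Finset.sum_pos (fun i _ => by exact_mod_cast hm i) hB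
  set N : ℝ := ∑ i ∈ A, (m i : ℝ) with hNdef
  have hN : 0 < N := hNB A hAn
  obtain ⟨i0, hi0⟩ := hAn
  have hKtop : Zr l ⊤ A ≠ ⊤ := by
    intro h
    have h1 : v0 ∈ Zr l ⊤ A := by rw [h]; exact Submodule.mem_top
    exact h0 i0 hi0 ((mem_Zr.1 h1).2 i0 hi0)
  have hr : 0 < cdm l A := by
    unfold cdm
    have h1 : kp l ⊤ A < finrank ℝ (σ → ℝ) := by
      unfold kp
      exact Submodule.finrank_lt hKtop
    have h2 : (kp l ⊤ A : ℝ) < finrank ℝ (σ → ℝ) := by exact_mod_cast h1
    linarith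
  set r : ℝ := cdm l A with hrdef
  obtain ⟨Y, hKY⟩ := Submodule.exists_isCompl (Zr l ⊤ A)
  set s0 : ℝ := -(r / N) with hs0
  have hs00 : s0 < 0 := by
    have : 0 < r / N := by positivity
    rw [hs0]; linarith
  -- the signs
  set sg : ι → ℝ := fun i => if i ∈ A then l i v0 else l i p + e i with hsg
  have hsgA : ∀ i ∈ A, sg i = l i v0 := fun i hi => by rw [hsg]; simp only [if_pos hi]
  have hsgN : ∀ i, i ∉ A → sg i = l i p + e i := fun i hi => by rw [hsg]; simp only [if_neg hi]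
  have hsg0 : ∀ i, sg i ≠ 0 := by
    intro i
    by_cases hi : i ∈ A
    · rw [hsgA i hi]; exact h0 i hi
    · rw [hsgN i hi]
      exact fun h => hi ((hA i).2 h)
  set κ : ℝ := ∏ i, sg i ^ m i with hκ
  have hκ0 : κ ≠ 0 := Finset.prod_ne_zero_iff.2 fun i _ => pow_ne_zero _ (hsg0 i)
  have hb' : IsBFunction (C (κ : ℂ) * arrP c e m) b :=
    bfun_scale _ _ (by exact_mod_cast hκ0) b hb
  set F : (σ → ℝ) → ℝ := fun x => ∏ i, (sg i * (l i x + e i)) ^ m i with hFdef
  have hF : ∀ x, ev (C (κ : ℂ) * arrP c e m) x = (F x : ℂ) := by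
    intro x
    rw [Pool.Agent.H74A.ev_mul, Pool.Agent.H74A.ev_C, ev_arrP, hFdef, hκ, ← Complex.ofReal_mul,
      ← Finset.prod_mul_distrib]
    simp only [mul_pow]
    rfl
  have hFc : Continuous F := by
    rw [hFdef]
    exact continuous_finsetProd _ fun i _ => (continuous_const.mul (cont_f _ _)).pow _
  set Ω := Om c e sg with hΩ
  have hΩo : IsOpen Ω := Om_open c e sg
  have hΩm : MeasurableSet Ω := hΩo.measurableSet
  have hpos : ∀ x ∈ Ω, 0 < F x := fun x hx => Finset.prod_pos fun i _ => pow_pos (hx i) _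
  have hBdry : Bdry (C (κ : ℂ) * arrP c e m) Ω := by
    refine ⟨hΩo, fun x hx => ?_⟩
    rw [hF, Complex.ofReal_eq_zero]
    have hcl : ∀ i, 0 ≤ sg i * (l i x + e i) := by
      intro i
      have h1 : closure Ω ⊆ {x | 0 ≤ sg i * (l i x + e i)} := by
        refine closure_minimal (fun y hy => (hy i).le) ?_
        exact isClosed_le continuous_const (continuous_const.mul (cont_f _ _))
      exact h1 hx.1
    have hnot : x ∉ Ω := fun h => hx.2 (by rwa [hΩo.interior_eq])
    have h2 : ∃ i, ¬ 0 < sg i * (l i x + e i) := by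
      by_contra hcon
      push Not at hcon
      exact hnot hcon
    obtain ⟨i, hi⟩ := h2
    have h3 : sg i * (l i x + e i) = 0 := le_antisymm (not_lt.1 hi) (hcl i)
    rw [hFdef]
    refine Finset.prod_eq_zero (Finset.mem_univ i) ?_
    rw [h3, zero_pow (hm i).ne']
  -- the exponents
  set t : ℝ → ι → ℝ := fun s i => -(m i * s) with ht
  have htsm : ∀ s B, tsm (t s) B = -(s * ∑ i ∈ B, (m i : ℝ)) := by
    intro s B
    unfold tsm
    rw [ht, Finset.mul_sum, ← Finset.sum_neg_distrib]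
    refine Finset.sum_congr rfl fun i _ => ?_
    ring
  have hfin : ∀ s, s0 < s → s < 0 → ∀ δ : ℝ, 0 < δ →
      ∫⁻ x in Box hKY δ, gC l (t s) A v0 x ≠ ⊤ := by
    intro s h1 h2 δ hδ
    refine chamber_finite volume l (t s) (fun i => ?_) A v0 hKY hKtop ?_ ?_ hδ
    · simp only [ht]
      have : (0 : ℝ) < m i := by exact_mod_cast hm i
      nlinarith
    · intro x hx1 hx2 B hB hBn
      rw [htsm]
      have h3 := hgood x hx1 hx2 B hB hBn
      have h4 := hNB B hBn
      have h5 : -s < r / N := by rw [hs0] at h1; linarith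
      calc -(s * ∑ i ∈ B, (m i : ℝ)) = (-s) * ∑ i ∈ B, (m i : ℝ) := by ring
        _ < r / N * ∑ i ∈ B, (m i : ℝ) := mul_lt_mul_of_pos_right h5 h4
        _ = (r * ∑ i ∈ B, (m i : ℝ)) / N := by ring
        _ ≤ (cdm l B * N) / N := div_le_div_of_nonneg_right h3 hN.le
        _ = cdm l B := by field_simp
    · rw [htsm]
      have h5 : -s < r / N := by rw [hs0] at h1; linarith
      calc -(s * N) = (-s) * N := by ring
        _ < r / N * N := mul_lt_mul_of_pos_right h5 hN
        _ = r := by field_simp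
  -- the radius
  have hU1 : ∀ᶠ x in 𝓝 p, ∀ i, i ∉ A → 0 < sg i * (l i x + e i) := by
    rw [eventually_all]
    intro i
    by_cases hi : i ∈ A
    · exact Eventually.of_forall fun x h => absurd hi h
    · have h1 : 0 < sg i * (l i p + e i) := by
        rw [hsgN i hi]
        exact mul_self_pos.2 (fun h => hi ((hA i).2 h))
      have h2 : Continuous fun x => sg i * (l i x + e i) := continuous_const.mul (cont_f _ _)
      filter_upwards [h2.continuousAt.eventually (lt_mem_nhds h1)] with x hx _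
      exact hx
  have hU2 : ∀ᶠ x in 𝓝 p, x - p ∈ Box hKY (1 : ℝ) := by
    have h1 : Tendsto (fun x : σ → ℝ => x - p) (𝓝 p) (𝓝 0) := by
      have : Continuous fun x : σ → ℝ => x - p := continuous_id.sub continuous_const
      simpa using this.tendsto p
    exact h1.eventually (Box_nhds hKY one_pos)
  obtain ⟨R, hR, hRU⟩ := Metric.nhds_basis_closedBall.eventually_iff.1 (hU1.and hU2)
  set K : Set (σ → ℝ) := closedBall p R with hK
  have hKc : IsCompact K := isCompact_closedBall p R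
  -- the factor which does not vanish
  set H : (σ → ℝ) → ℝ := fun x => (∏ i ∈ A, |sg i| ^ m i) *
    ∏ i ∈ Finset.univ.filter (fun i => i ∉ A), (sg i * (l i x + e i)) ^ m i with hH
  have hHc : Continuous H := by
    rw [hH]
    exact continuous_const.mul (continuous_finsetProd _ fun i _ =>
      (continuous_const.mul (cont_f _ _)).pow _)
  have hHpos : ∀ x ∈ K, 0 < H x := by
    intro x hx
    refine mul_pos (Finset.prod_pos fun i _ => pow_pos (abs_pos.2 (hsg0 i)) _)
      (Finset.prod_pos fun i hi => pow_pos ((hRU hx).1 i (Finset.mem_filter.1 hi).2) _)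
  have hlA : ∀ i ∈ A, ∀ x, l i x + e i = l i (x - p) := by
    intro i hi x
    have := (hA i).1 hi
    rw [map_sub]
    change l i x + e i = _
    have h2 : l i p + e i = 0 := this
    linarith
  have hFH : ∀ x ∈ Ω, ∀ s, s0 < s → H x ≠ 0 → F x ^ s = |H x| ^ s * GG l 0 (t s) A (x - p) := by
    intro x hx s _ _
    have h1 : F x = |H x| * ∏ i ∈ A, |l i (x - p)| ^ m i := by
      have h2 : F x = |F x| := (abs_of_pos (hpos x hx)).symm
      rw [h2, hFdef, hH, abs_mul, Finset.abs_prod, Finset.abs_prod, Finset.abs_prod,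
        ← Finset.prod_filter_mul_prod_filter_not Finset.univ (fun i => i ∈ A)]
      have h3 : Finset.univ.filter (fun i => i ∈ A) = A := by ext; simp
      rw [h3]
      have h4 : ∏ i ∈ A, |(sg i * (l i x + e i)) ^ m i| =
          (∏ i ∈ A, |(|sg i| ^ m i)|) * ∏ i ∈ A, |l i (x - p)| ^ m i := by
        rw [← Finset.prod_mul_distrib]
        refine Finset.prod_congr rfl fun i hi => ?_
        rw [hlA i hi, mul_pow, abs_mul, abs_pow, abs_pow, abs_pow, abs_abs]
      rw [h4]
      ring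
    rw [h1, Real.mul_rpow (abs_nonneg _) (Finset.prod_nonneg fun i _ => by positivity)]
    congr 1
    unfold GG
    rw [← Real.finset_prod_rpow _ _ (fun i _ => by positivity)]
    refine Finset.prod_congr rfl fun i hi => ?_
    rw [Pi.zero_apply, add_zero, ht]
    simp only [neg_neg]
    rw [← Real.rpow_natCast, ← Real.rpow_mul (abs_nonneg _)]
  have hΩCh : ∀ x ∈ Ω, x - p ∈ Cham l A v0 := by
    intro x hx i hi
    have := hx i
    rw [hsgA i hi] at this
    rwa [← hlA i hi]
  have hChΩ : ∀ x ∈ K, x - p ∈ Cham l A v0 → x ∈ Ω := by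
    intro x hx hc i
    by_cases hi : i ∈ A
    · have := hc i hi
      rw [← hlA i hi] at this
      rw [hsgA i hi]
      exact this
    · exact (hRU hx).1 i hi
  -- bounds of `H`
  obtain ⟨a, ha0, ha⟩ : ∃ a : ℝ, 0 < a ∧ ∀ x ∈ K, a ≤ H x := by
    have hKne : K.Nonempty := ⟨p, mem_closedBall_self hR.le⟩
    obtain ⟨x0, hx0, hmin⟩ := hKc.exists_isMinOn hKne hHc.continuousOn
    exact ⟨H x0, hHpos x0 hx0, fun x hx => hmin hx⟩
  obtain ⟨b1, hb1, hb1'⟩ : ∃ b1 : ℝ, 1 ≤ b1 ∧ ∀ x ∈ K, H x ≤ b1 := by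
    obtain ⟨M, hM⟩ := hKc.exists_bound_of_continuousOn (f := H) hHc.continuousOn
    refine ⟨max 1 M, le_max_left _ _, fun x hx => ?_⟩
    have := hM x hx
    rw [Real.norm_eq_abs] at this
    exact ((le_abs_self _).trans this).trans (le_max_right _ _)
  have htr : ∀ (g : (σ → ℝ) → ENNReal) (D : Set (σ → ℝ)),
      ∫⁻ x in (fun x => x - p) ⁻¹' D, g (x - p) = ∫⁻ y in D, g y := by
    intro g D
    exact (measurePreserving_sub_right (volume : Measure (σ → ℝ)) p).setLIntegral_comp_preimage_emb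
      (Homeomorph.subRight p).measurableEmbedding g D
  have hmeasF : ∀ s : ℝ, Measurable fun x => F x ^ s := fun s => hFc.measurable.pow_const _
  have hI1 : ∀ s, s0 < s → s < 0 → IntegrableOn (fun x => F x ^ s) (Ω ∩ K) := by
    intro s h1 h2
    refine ⟨(hmeasF s).aestronglyMeasurable, ?_⟩
    have hae : 0 ≤ᵐ[volume.restrict (Ω ∩ K)] fun x => F x ^ s := by
      filter_upwards [ae_restrict_mem (hΩm.inter hKc.measurableSet)] with x hx
      exact Real.rpow_nonneg (hpos x hx.1).le _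
    rw [hasFiniteIntegral_iff_ofReal hae]
    have h3 : ∫⁻ x in Ω ∩ K, ENNReal.ofReal (F x ^ s) ≤
        ∫⁻ x in (fun x => x - p) ⁻¹' (Box hKY (1 : ℝ)),
          ENNReal.ofReal (a ^ s) * gC l (t s) A v0 (x - p) := by
      refine le_trans ?_ (lintegral_mono_set (s := Ω ∩ K) ?_)
      · refine setLIntegral_mono' (hΩm.inter hKc.measurableSet) fun x hx => ?_
        unfold gC
        rw [Set.indicator_of_mem (hΩCh x hx.1), ← ENNReal.ofReal_mul (by positivity),
          hFH x hx.1 s h1 (hHpos x hx.2).ne']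
        refine ENNReal.ofReal_le_ofReal (mul_le_mul_of_nonneg_right ?_ (GG_nonneg _ _ _ _ _))
        rw [abs_of_pos (hHpos x hx.2)]
        exact Real.rpow_le_rpow_of_nonpos ha0 (ha x hx.2) h2.le
      · rintro x ⟨-, hx⟩
        exact (hRU hx).2
    refine lt_of_le_of_lt h3 ?_
    rw [htr (fun y => ENNReal.ofReal (a ^ s) * gC l (t s) A v0 y),
      lintegral_const_mul _ (gC_meas l (t s) A v0)]
    exact ENNReal.mul_lt_top ENNReal.ofReal_lt_top (lt_top_iff_ne_top.2 (hfin s h1 h2 1 one_pos))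
  have hI : ∀ s, s0 < s → IntegrableOn (fun x => F x ^ s) (Ω ∩ K) := by
    intro s hs
    by_cases h3 : s < 0
    · exact hI1 s hs h3
    · push Not at h3
      have h4 : Continuous fun x => F x ^ s := hFc.rpow_const fun _ => Or.inr h3
      exact (h4.continuousOn.integrableOn_compact hKc).mono_set Set.inter_subset_right
  obtain ⟨ρ, hρ0, hρ1, hρone, hρT⟩ := exists_bump p hR
  have hρm : Measurable ρ := by
    have h7 : ρ = fun x => ((ρ x : ℂ)).re := by
      funext x; rw [Complex.ofReal_re]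
    rw [h7]
    exact (Complex.continuous_re.comp hρT.1.continuous).measurable
  -- the small box
  have hBoxsub : Box hKY (R / 4) ⊆ closedBall 0 (R / 2) := by
    rintro x ⟨hx1, hx2⟩
    rw [mem_closedBall_zero_iff, ← cK_add_cY hKY x]
    refine (norm_add_le _ _).trans ?_
    change ‖cK hKY x‖ + ‖cY hKY x‖ ≤ _
    linarith
  have hR4 : 0 < R / 4 := by linarith
  obtain ⟨c1, hc1, hdiv⟩ := chamber_div volume l m A v0 h0 hKY ⟨i0, hi0⟩ hN hR4
  have hlow : ∀ s, s0 < s → s < 0 →
      b1 ^ s0 * (c1 / (s - s0)) ≤ ∫ x in Ω, F x ^ s * ρ x := by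
    intro s h1 h2
    have hnn : ∀ x ∈ Ω, 0 ≤ F x ^ s := fun x hx => Real.rpow_nonneg (hpos x hx).le _
    have hint : IntegrableOn (fun x => F x ^ s * ρ x) (Ω ∩ K) := by
      refine (hI s h1).mono' ?_ ?_
      · exact ((hmeasF s).mul hρm).aestronglyMeasurable
      · filter_upwards [ae_restrict_mem (hΩm.inter hKc.measurableSet)] with x hx
        rw [norm_mul, Real.norm_eq_abs, Real.norm_eq_abs, abs_of_nonneg (hnn x hx.1),
          abs_of_nonneg (hρ0 x)]
        exact mul_le_of_le_one_right (hnn x hx.1) (hρ1 x)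
    have e0 : ∫ x in Ω, F x ^ s * ρ x = ∫ x in Ω ∩ K, F x ^ s * ρ x := by
      refine setIntegral_eq_of_subset_of_forall_sdiff_eq_zero hΩm Set.inter_subset_left ?_
      rintro x ⟨hx1, hx2⟩
      have hx3 : x ∉ K := fun h => hx2 ⟨hx1, h⟩
      have hx4 : (ρ x : ℂ) = 0 := Pool.Agent.H74A.Test.zero hρT hx3
      rw [Complex.ofReal_eq_zero.1 hx4, mul_zero]
    rw [e0]
    rw [integral_eq_lintegral_of_nonneg_ae ?_ hint.1]
    swap
    · filter_upwards [ae_restrict_mem (hΩm.inter hKc.measurableSet)] with x hx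
      exact mul_nonneg (hnn x hx.1) (hρ0 x)
    have hJt : ∫⁻ x in Ω ∩ K, ENNReal.ofReal (F x ^ s * ρ x) ≠ ⊤ := by
      have h3 := hint.2
      have hae : 0 ≤ᵐ[volume.restrict (Ω ∩ K)] fun x => F x ^ s * ρ x := by
        filter_upwards [ae_restrict_mem (hΩm.inter hKc.measurableSet)] with x hx
        exact mul_nonneg (hnn x hx.1) (hρ0 x)
      rw [hasFiniteIntegral_iff_ofReal hae] at h3
      exact h3.ne
    have hfs := hfin s h1 h2 (R / 4) hR4
    have h3 := hdiv s h1 h2 hfs
    have h4 : ENNReal.ofReal (b1 ^ s0) * ∫⁻ x in Box hKY (R / 4), gC l (t s) A v0 x ≤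
        ∫⁻ x in Ω ∩ K, ENNReal.ofReal (F x ^ s * ρ x) := by
      rw [← lintegral_const_mul _ (gC_meas l (t s) A v0),
        ← htr (fun y => ENNReal.ofReal (b1 ^ s0) * gC l (t s) A v0 y)]
      have h5 : (fun x => x - p) ⁻¹' (Box hKY (R / 4)) ⊆ closedBall p (R / 2) := by
        intro x hx
        have := hBoxsub hx
        rw [mem_closedBall_zero_iff] at this
        rwa [mem_closedBall, dist_eq_norm]
      have h6 : ∀ x, ENNReal.ofReal (b1 ^ s0) * gC l (t s) A v0 (x - p) =
          ((fun x => x - p) ⁻¹' (Cham l A v0)).indicator (fun x =>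
            ENNReal.ofReal (b1 ^ s0) * ENNReal.ofReal (GG l 0 (t s) A (x - p))) x := by
        intro x
        unfold gC
        by_cases hx : x - p ∈ Cham l A v0
        · rw [Set.indicator_of_mem hx, Set.indicator_of_mem (show x ∈ (fun x => x - p) ⁻¹' (Cham l A v0) from hx)]
        · rw [Set.indicator_of_notMem hx,
            Set.indicator_of_notMem (show x ∉ (fun x => x - p) ⁻¹' (Cham l A v0) from hx), mul_zero]
      simp only [h6]
      have hmC : MeasurableSet ((fun x : σ → ℝ => x - p) ⁻¹' (Cham l A v0)) :=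
        ((Cham_open l A v0).preimage (continuous_id.sub continuous_const)).measurableSet
      have hmB : MeasurableSet ((fun x : σ → ℝ => x - p) ⁻¹' (Box hKY (R / 4))) :=
        (Box_meas hKY _).preimage (measurable_id.sub_const _)
      rw [setLIntegral_indicator hmC]
      have h7 : (fun x : σ → ℝ => x - p) ⁻¹' (Cham l A v0) ∩
          (fun x : σ → ℝ => x - p) ⁻¹' (Box hKY (R / 4)) ⊆ Ω ∩ K := by
        rintro x ⟨hx1, hx2⟩
        have hxK : x ∈ K := closedBall_subset_closedBall (by linarith) (h5 hx2)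
        exact ⟨hChΩ x hxK hx1, hxK⟩
      refine le_trans ?_ (lintegral_mono_set h7)
      refine setLIntegral_mono' (hmC.inter hmB) fun x hx => ?_
      have hx' := h7 hx
      rw [hρone x (h5 hx.2), mul_one, hFH x hx'.1 s h1 (hHpos x hx'.2).ne',
        ← ENNReal.ofReal_mul (by positivity)]
      refine ENNReal.ofReal_le_ofReal (mul_le_mul_of_nonneg_right ?_ (GG_nonneg _ _ _ _ _))
      rw [abs_of_pos (hHpos x hx'.2)]
      calc b1 ^ s0 ≤ b1 ^ s := Real.rpow_le_rpow_of_exponent_le hb1 h1.le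
        _ ≤ _ := Real.rpow_le_rpow_of_nonpos (hHpos x hx'.2) (hb1' x hx'.2) h2.le
    have h5 := ENNReal.toReal_mono hJt h4
    rw [ENNReal.toReal_mul, ENNReal.toReal_ofReal (by positivity)] at h5
    refine le_trans (mul_le_mul_of_nonneg_left ?_ (by positivity)) h5
    have h6 : s - s0 = s + r / N := by rw [hs0]; ring
    rw [h6]
    exact h3
  have key := Pool.Agent.H74A.root_real hBdry hKc hF hpos hb' hρT s0 hI ?_
  · exact key
  · intro M δ hδ
    set S0 : ℝ := b1 ^ s0 * c1 with hS0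
    have hS0p : 0 < S0 := by positivity
    set ε : ℝ := min (min (δ / 2) (-s0 / 2)) (S0 / (|M| + 1)) with hε
    have hε0 : 0 < ε := lt_min (lt_min (by linarith) (by linarith)) (by positivity)
    have h1 : ε ≤ δ / 2 := (min_le_left _ _).trans (min_le_left _ _)
    have h2 : ε ≤ -s0 / 2 := (min_le_left _ _).trans (min_le_right _ _)
    have h3 : ε ≤ S0 / (|M| + 1) := min_le_right _ _
    refine ⟨s0 + ε, by linarith, by linarith, ?_⟩
    have h4 := hlow (s0 + ε) (by linarith) (by linarith)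
    rw [add_sub_cancel_left] at h4
    have h5 : |M| + 1 ≤ b1 ^ s0 * (c1 / ε) := by
      rw [← mul_div_assoc, le_div_iff₀ hε0, ← hS0]
      calc (|M| + 1) * ε ≤ (|M| + 1) * (S0 / (|M| + 1)) :=
            mul_le_mul_of_nonneg_left h3 (by positivity)
        _ = S0 := by field_simp
    have := le_abs_self M
    linarith

end Pool.Agent.H73.RA
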