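import Pool.Agent.H73.RA.Loc

set_option autoImplicit false
set_option linter.unusedVariables false
set_option linter.unusedSectionVars false

/-! # Integrals over chambers -/

namespace Pool.Agent.H73.RA

open Module MeasureTheory Filter Topology Metric ENNReal

variable {ι E : Type} [DecidableEq ι] [NormedAddCommGroup E] [NormedSpace ℝ E] [FiniteDimensional ℝ E]
  [MeasurableSpace E] [BorelSpace E] (μ : Measure E) [μ.IsAddHaarMeasure]
  (l : ι → E →ₗ[ℝ] ℝ)

/-- the chamber of `v0` -/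
def Cham (A : Finset ι) (v0 : E) : Set E := {x | ∀ i ∈ A, 0 < l i v0 * l i x}

theorem Cham_open (A : Finset ι) (v0 : E) : IsOpen (Cham l A v0) := by
  have h : Cham l A v0 = ⋂ i ∈ A, {x | 0 < l i v0 * l i x} := by
    ext x
    simp [Cham]
  rw [h]
  refine isOpen_biInter_finset fun i _ => ?_
  exact isOpen_lt continuous_const
    (continuous_const.mul (LinearMap.continuous_of_finiteDimensional (l i)))

theorem Cham_TT {K Y : Submodule ℝ E} (hKY : IsCompl K Y) (A : Finset ι) (v0 : E)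
    (hK : ∀ i ∈ A, ∀ k ∈ K, l i k = 0) (x : E) :
    TT hKY (1 / 2) x ∈ Cham l A v0 ↔ x ∈ Cham l A v0 := by
  unfold Cham
  simp only [Set.mem_setOf_eq]
  refine forall₂_congr fun i hi => ?_
  rw [l_TT hKY (l i) (hK i hi)]
  constructor
  · intro h; nlinarith
  · intro h; nlinarith

/-- the integrand on the chamber -/
noncomputable def gC (t : ι → ℝ) (A : Finset ι) (v0 : E) : E → ℝ≥0∞ :=
  (Cham l A v0).indicator fun x => ENNReal.ofReal (GG l 0 t A x)

theorem gC_meas (t : ι → ℝ) (A : Finset ι) (v0 : E) : Measurable (gC l t A v0) :=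
  ((GG_meas l 0 t A).ennreal_ofReal).indicator (Cham_open l A v0).measurableSet

theorem gC_TT {K Y : Submodule ℝ E} (hKY : IsCompl K Y) (t : ι → ℝ) (A : Finset ι) (v0 : E)
    (hK : ∀ i ∈ A, ∀ k ∈ K, l i k = 0) (x : E) :
    gC l t A v0 (TT hKY (1 / 2) x) = ENNReal.ofReal ((2 : ℝ) ^ tsm t A) * gC l t A v0 x := by
  unfold gC
  by_cases hx : x ∈ Cham l A v0
  · rw [Set.indicator_of_mem hx, Set.indicator_of_mem ((Cham_TT l hKY A v0 hK x).2 hx),
      GG_TT l t hKY A hK, ENNReal.ofReal_mul (by positivity)]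
  · rw [Set.indicator_of_notMem hx,
      Set.indicator_of_notMem (fun h => hx ((Cham_TT l hKY A v0 hK x).1 h)), mul_zero]

/-- the closed chamber has no point outside of the centre which is on a heavy flat -/
def GoodCh (t : ι → ℝ) (A : Finset ι) (v0 : E) : Prop :=
  ∀ x, (∀ i ∈ A, 0 ≤ l i v0 * l i x) → (∃ i ∈ A, l i x ≠ 0) →
    ∀ B, B ⊆ A.filter (fun i => l i x = 0) → B.Nonempty → tsm t B < cdm l B

theorem chamber_finite (t : ι → ℝ) (ht : ∀ i, 0 ≤ t i) (A : Finset ι) (v0 : E)
    {Y : Submodule ℝ E} (hKY : IsCompl (Zr l ⊤ A) Y) (hKtop : Zr l ⊤ A ≠ ⊤)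
    (hgood : GoodCh l t A v0) (hA : tsm t A < cdm l A) {δ : ℝ} (hδ : 0 < δ) :
    ∫⁻ x in Box hKY δ, gC l t A v0 x ∂μ ≠ ⊤ := by
  have hKl : ∀ i ∈ A, ∀ k ∈ Zr l ⊤ A, l i k = 0 := fun i hi k hk => (mem_Zr.1 hk).2 i hi
  refine box_finite μ hKY hKtop hδ _ (gC_meas l t A v0) (ENNReal.ofReal ((2 : ℝ) ^ tsm t A))
    ENNReal.ofReal_ne_top ?_ (theta_lt hKY hA) ?_
  · intro x
    rw [gC_TT l hKY t A v0 hKl]
  · refine ne_of_lt ?_
    have hc : IsCompact (Box hKY δ ∩ {x | δ / 2 ≤ ‖cY hKY x‖}) :=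
      (Box_compact hKY δ).inter_right (isClosed_le continuous_const (cont_cY hKY))
    have h1 := cpt_finite μ hc (gC l t A v0) Set.univ (by
      rintro x ⟨-, hx⟩
      rw [Set.mem_ofPred_eq] at hx
      have hxK : ∃ i ∈ A, l i x ≠ 0 := by
        by_contra hcon
        push Not at hcon
        have h4 : x ∈ Zr l ⊤ A := mem_Zr.2 ⟨Submodule.mem_top, hcon⟩
        have h5 : cY hKY x = 0 := by
          have := (coords hKY ⟨x, h4⟩ 0).2
          simpa using this
        rw [h5, norm_zero] at hx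
        linarith
      by_cases hcl : ∀ i ∈ A, 0 ≤ l i v0 * l i x
      · have h2 : LocI μ l 0 t A x := by
          refine split μ l 0 t A x ?_
          have h3 : A.filter (fun i => l i x + (0 : ι → ℝ) i = 0) = A.filter (fun i => l i x = 0) := by
            refine Finset.filter_congr fun i _ => ?_
            rw [Pi.zero_apply, add_zero]
          rw [h3]
          exact locI_all μ l 0 t ht _ _ rfl (fun B hB hBn => hgood x hcl hxK B hB hBn) x
        obtain ⟨U, hU, h3⟩ := h2
        refine ⟨U, hU, ?_⟩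
        rw [Set.inter_univ]
        refine lt_of_le_of_lt (lintegral_mono fun y => ?_) h3
        exact Set.indicator_le_self _ _ _
      · push Not at hcl
        obtain ⟨i, hi, hneg⟩ := hcl
        refine ⟨{y | l i v0 * l i y < 0}, ?_, ?_⟩
        · exact (isOpen_lt (continuous_const.mul
            (LinearMap.continuous_of_finiteDimensional (l i))) continuous_const).mem_nhds hneg
        · rw [Set.inter_univ]
          have hmeas : MeasurableSet {y | l i v0 * l i y < 0} :=
            (isOpen_lt (continuous_const.mul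
            (LinearMap.continuous_of_finiteDimensional (l i))) continuous_const).measurableSet
          have h0 : ∫⁻ y in {y | l i v0 * l i y < 0}, gC l t A v0 y ∂μ = 0 := by
            rw [← lintegral_indicator hmeas, lintegral_eq_zero_iff']
            · refine Eventually.of_forall fun y => ?_
              by_cases hy : y ∈ {y | l i v0 * l i y < 0}
              · rw [Set.indicator_of_mem hy]
                unfold gC
                rw [Set.indicator_of_notMem]
                · rfl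
                · intro h
                  have := h i hi
                  rw [Set.mem_ofPred_eq] at hy
                  linarith
              · rw [Set.indicator_of_notMem hy]
                rfl
            · exact ((gC_meas l t A v0).indicator hmeas).aemeasurable
          rw [h0]
          exact ENNReal.zero_lt_top)
    refine lt_of_le_of_lt (lintegral_mono_set ?_) h1
    rintro x ⟨h2, h3, h4⟩
    simp only [zero_add, pow_one, pow_zero, mul_one] at h3 h4
    exact ⟨⟨⟨h2, h4⟩, by rw [Set.mem_ofPred_eq]; linarith⟩, Set.mem_univ _⟩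

/-- the open part of the shell in the chamber -/
theorem shell_pos (A : Finset ι) (v0 : E) (h0 : ∀ i ∈ A, l i v0 ≠ 0)
    {Y : Submodule ℝ E} (hKY : IsCompl (Zr l ⊤ A) Y) (hAn : A.Nonempty) {δ : ℝ} (hδ : 0 < δ) :
    0 < μ (Shl hKY δ 0 ∩ Cham l A v0) := by
  have hopen : IsOpen ({x : E | ‖cK hKY x‖ < δ} ∩ {x | δ / 2 < ‖cY hKY x‖} ∩ {x | ‖cY hKY x‖ < δ} ∩
      Cham l A v0) := by
    refine IsOpen.inter (IsOpen.inter (IsOpen.inter ?_ ?_) ?_) (Cham_open l A v0)
    · exact isOpen_lt (cont_cK hKY) continuous_const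
    · exact isOpen_lt continuous_const (cont_cY hKY)
    · exact isOpen_lt (cont_cY hKY) continuous_const
  have hv : cY hKY v0 ≠ 0 := by
    intro h
    have h1 := cK_add_cY hKY v0
    rw [h, Submodule.coe_zero, add_zero] at h1
    obtain ⟨i, hi⟩ := hAn
    apply h0 i hi
    rw [← h1]
    exact (mem_Zr.1 (cK hKY v0).2).2 i hi
  have hp : 0 < ‖cY hKY v0‖ := norm_pos_iff.2 hv
  have hne : ({x : E | ‖cK hKY x‖ < δ} ∩ {x | δ / 2 < ‖cY hKY x‖} ∩ {x | ‖cY hKY x‖ < δ} ∩
      Cham l A v0).Nonempty := by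
    set τ : ℝ := 3 * δ / (4 * ‖cY hKY v0‖) with hτ
    have hτ0 : 0 < τ := by positivity
    have hc := coords hKY 0 (τ • cY hKY v0)
    rw [Submodule.coe_zero, zero_add] at hc
    have hn : ‖τ • cY hKY v0‖ = 3 * δ / 4 := by
      rw [norm_smul, Real.norm_eq_abs, abs_of_pos hτ0, hτ]
      field_simp
    refine ⟨((τ • cY hKY v0 : Y) : E), ⟨⟨?_, ?_⟩, ?_⟩, ?_⟩
    · rw [Set.mem_ofPred_eq, hc.1, norm_zero]; exact hδ
    · rw [Set.mem_ofPred_eq, hc.2, hn]; linarith
    · rw [Set.mem_ofPred_eq, hc.2, hn]; linarith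
    · intro i hi
      have h2 : l i (cY hKY v0 : E) = l i v0 := by
        have h1 := cK_add_cY hKY v0
        conv_rhs => rw [← h1]
        rw [map_add, (mem_Zr.1 (cK hKY v0).2).2 i hi, zero_add]
      rw [Submodule.coe_smul, map_smul, h2, smul_eq_mul]
      have h3 : 0 < l i v0 * l i v0 := mul_self_pos.2 (h0 i hi)
      nlinarith
  refine lt_of_lt_of_le (hopen.measure_pos μ hne) (measure_mono ?_)
  rintro x ⟨⟨⟨h1, h2⟩, h3⟩, h4⟩
  rw [Set.mem_ofPred_eq] at h1 h2 h3
  refine ⟨⟨h1.le, ?_, ?_⟩, h4⟩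
  · simp only [zero_add, pow_one]; linarith
  · simp only [pow_zero, mul_one]; exact h3.le

/-- **Divergence.** With the exponents `t = - m s`, the integral over the box grows at least like
`1 / (s - s₀)` as `s` decreases to `s₀ = - codim / ∑ m`. -/
theorem chamber_div (m : ι → ℕ) (A : Finset ι) (v0 : E) (h0 : ∀ i ∈ A, l i v0 ≠ 0)
    {Y : Submodule ℝ E} (hKY : IsCompl (Zr l ⊤ A) Y) (hAn : A.Nonempty)
    (hN : 0 < ∑ i ∈ A, (m i : ℝ)) {δ : ℝ} (hδ : 0 < δ) :
    ∃ c1 : ℝ, 0 < c1 ∧ ∀ s : ℝ, -(cdm l A / ∑ i ∈ A, (m i : ℝ)) < s → s < 0 →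
      ∫⁻ x in Box hKY δ, gC l (fun i => -(m i * s)) A v0 x ∂μ ≠ ⊤ →
      c1 / (s + cdm l A / ∑ i ∈ A, (m i : ℝ)) ≤
        (∫⁻ x in Box hKY δ, gC l (fun i => -(m i * s)) A v0 x ∂μ).toReal := by
  set N : ℝ := ∑ i ∈ A, (m i : ℝ) with hNdef
  set r : ℝ := cdm l A with hr
  have hKl : ∀ i ∈ A, ∀ k ∈ Zr l ⊤ A, l i k = 0 := fun i hi k hk => (mem_Zr.1 hk).2 i hi
  -- bound of the product on the box
  have hcont : Continuous fun x : E => ∏ i ∈ A, |l i x| ^ m i :=
    continuous_finsetProd _ fun i _ => ((LinearMap.continuous_of_finiteDimensional (l i)).abs).pow _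
  obtain ⟨M, hM⟩ := (Box_compact hKY δ).exists_bound_of_continuousOn
    (f := fun x : E => ∏ i ∈ A, |l i x| ^ m i) hcont.continuousOn
  set M1 : ℝ := max 1 M with hM1
  have hM1' : 1 ≤ M1 := le_max_left _ _
  set S : Set E := Shl hKY δ 0 ∩ Cham l A v0 with hS
  have hSpos := shell_pos μ l A v0 h0 hKY hAn hδ
  have hSub : S ⊆ Box hKY δ := by
    rintro x ⟨⟨h1, -, h2⟩, -⟩
    simp only [pow_zero, mul_one] at h2
    exact ⟨h1, h2⟩
  have hSt : μ S ≠ ⊤ := ((measure_mono hSub).trans_lt (Box_compact hKY δ).measure_lt_top).ne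
  have hSr : 0 < (μ S).toReal := ENNReal.toReal_pos hSpos.ne' hSt
  have hSm : MeasurableSet S := (Shl_meas hKY δ 0).inter (Cham_open l A v0).measurableSet
  have hL : 0 < Real.log 2 := Real.log_pos (by norm_num)
  refine ⟨M1 ^ (-(r / N)) * (μ S).toReal / (N * Real.log 2), by positivity, fun s hs1 hs2 hfin => ?_⟩
  set t : ι → ℝ := fun i => -(m i * s) with ht
  have htsm : tsm t A = -(N * s) := by
    unfold tsm
    rw [ht, hNdef, Finset.sum_mul, ← Finset.sum_neg_distrib]
  set J := ∫⁻ x in Box hKY δ, gC l t A v0 x ∂μ with hJ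
  set Js := ∫⁻ x in Shl hKY δ 0, gC l t A v0 x ∂μ with hJs
  have hself := box_self μ hKY hδ (gC l t A v0) (gC_meas l t A v0) (ENNReal.ofReal ((2 : ℝ) ^ tsm t A))
    ENNReal.ofReal_ne_top (gC_TT l hKY t A v0 hKl)
  rw [← hJ, ← hJs] at hself
  -- lower bound of the shell integral
  have hlow : ENNReal.ofReal (M1 ^ (-(r / N))) * μ S ≤ Js := by
    rw [hJs, ← setLIntegral_const]
    calc ∫⁻ x in S, ENNReal.ofReal (M1 ^ (-(r / N))) ∂μ ≤ ∫⁻ x in S, gC l t A v0 x ∂μ := by
          refine setLIntegral_mono' hSm fun x hx => ?_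
          unfold gC
          rw [Set.indicator_of_mem hx.2]
          refine ENNReal.ofReal_le_ofReal ?_
          have hpos : ∀ i ∈ A, 0 < |l i x| := by
            intro i hi
            have := hx.2 i hi
            exact abs_pos.2 (fun h => by rw [h, mul_zero] at this; exact lt_irrefl _ this)
          have h1 : GG l 0 t A x = (∏ i ∈ A, |l i x| ^ m i) ^ s := by
            unfold GG
            rw [← Real.finset_prod_rpow _ _ (fun i hi => by positivity)]
            refine Finset.prod_congr rfl fun i hi => ?_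
            rw [Pi.zero_apply, add_zero, ht, neg_neg, ← Real.rpow_natCast, ← Real.rpow_mul (abs_nonneg _)]
          have h2 : ∏ i ∈ A, |l i x| ^ m i ≤ M1 := by
            have := hM x (hSub hx)
            rw [Real.norm_eq_abs] at this
            exact ((le_abs_self _).trans this).trans (le_max_right _ _)
          have h3 : 0 < ∏ i ∈ A, |l i x| ^ m i := Finset.prod_pos fun i hi => pow_pos (hpos i hi) _
          rw [h1]
          calc M1 ^ (-(r / N)) ≤ M1 ^ s := Real.rpow_le_rpow_of_exponent_le hM1' hs1.le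
            _ ≤ _ := Real.rpow_le_rpow_of_nonpos h3 h2 hs2.le
      _ ≤ _ := lintegral_mono_set Set.inter_subset_left
  have hJst : Js ≠ ⊤ := by
    intro h
    rw [h, top_add] at hself
    exact hfin hself
  have hreal : J.toReal = Js.toReal + ((1 / 2 : ℝ) ^ finrank ℝ Y * (2 : ℝ) ^ tsm t A) * J.toReal := by
    have h1 : J.toReal = (Js + ENNReal.ofReal ((1 / 2 : ℝ) ^ finrank ℝ Y) *
        (ENNReal.ofReal ((2 : ℝ) ^ tsm t A) * J)).toReal := congrArg ENNReal.toReal hself
    rw [ENNReal.toReal_add hJst (ENNReal.mul_ne_top ENNReal.ofReal_ne_top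
      (ENNReal.mul_ne_top ENNReal.ofReal_ne_top hfin)), ENNReal.toReal_mul, ENNReal.toReal_mul,
      ENNReal.toReal_ofReal (by positivity), ENNReal.toReal_ofReal (by positivity)] at h1
    linarith
  have hθ : 1 - (1 / 2 : ℝ) ^ finrank ℝ Y * (2 : ℝ) ^ tsm t A ≤ N * Real.log 2 * (s + r / N) := by
    have h1 : (1 / 2 : ℝ) ^ finrank ℝ Y * (2 : ℝ) ^ tsm t A =
        Real.exp (-(N * Real.log 2 * (s + r / N))) := by
      have h2 := finrank_compl hKY
      have h3 : (finrank ℝ Y : ℝ) = r := by rw [h2, hr]; rfl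
      rw [one_div, inv_pow, ← Real.rpow_natCast, ← Real.rpow_neg (by norm_num),
        ← Real.rpow_add (by norm_num), h3, htsm, Real.rpow_def_of_pos (by norm_num)]
      congr 1
      field_simp
      ring
    rw [h1]
    have := Real.add_one_le_exp (-(N * Real.log 2 * (s + r / N)))
    linarith
  have hlow' : M1 ^ (-(r / N)) * (μ S).toReal ≤ Js.toReal := by
    have h1 := ENNReal.toReal_mono hJst hlow
    rwa [ENNReal.toReal_mul, ENNReal.toReal_ofReal (by positivity)] at h1
  have hJ0 : 0 ≤ J.toReal := ENNReal.toReal_nonneg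
  have hsp : 0 < s + r / N := by linarith
  rw [div_div, div_le_iff₀ (by positivity)]
  calc M1 ^ (-(r / N)) * (μ S).toReal ≤ Js.toReal := hlow'
    _ = J.toReal * (1 - (1 / 2 : ℝ) ^ finrank ℝ Y * (2 : ℝ) ^ tsm t A) := by linarith
    _ ≤ J.toReal * (N * Real.log 2 * (s + r / N)) := mul_le_mul_of_nonneg_left hθ hJ0

end Pool.Agent.H73.RA
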