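import Mathlib

set_option autoImplicit false
set_option linter.unusedVariables false
set_option linter.unusedSectionVars false

/-! # Chambers of irreducible real arrangements which avoid a hyperplane -/

namespace Pool.Agent.H73.RA

open Module

variable {ι V : Type} [DecidableEq ι] [AddCommGroup V] [Module ℝ V] [FiniteDimensional ℝ V]

/-- the vectors of `W` killed by the forms of index in `B` -/
def Zr (l : ι → V →ₗ[ℝ] ℝ) (W : Submodule ℝ V) (B : Finset ι) : Submodule ℝ V :=
  W ⊓ ⨅ i ∈ B, LinearMap.ker (l i)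

omit [DecidableEq ι] [FiniteDimensional ℝ V] in
theorem mem_Zr {l : ι → V →ₗ[ℝ] ℝ} {W : Submodule ℝ V} {B : Finset ι} {v : V} :
    v ∈ Zr l W B ↔ v ∈ W ∧ ∀ i ∈ B, l i v = 0 := by
  simp [Zr, Submodule.mem_inf, Submodule.mem_iInf, LinearMap.mem_ker]

/-- its dimension -/
noncomputable def kp (l : ι → V →ₗ[ℝ] ℝ) (W : Submodule ℝ V) (B : Finset ι) : ℕ :=
  finrank ℝ (Zr l W B)

variable {l : ι → V →ₗ[ℝ] ℝ} {W : Submodule ℝ V}

theorem Zr_mono {B D : Finset ι} (h : B ⊆ D) : Zr l W D ≤ Zr l W B := fun v hv =>
  mem_Zr.2 ⟨(mem_Zr.1 hv).1, fun i hi => (mem_Zr.1 hv).2 i (h hi)⟩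

theorem kp_mono {B D : Finset ι} (h : B ⊆ D) : kp l W D ≤ kp l W B :=
  Submodule.finrank_mono (Zr_mono h)

theorem kp_empty : kp l W ∅ = finrank ℝ W := by
  have h : Zr l W ∅ = W := by
    ext v
    simp [mem_Zr]
  unfold kp
  rw [h]

theorem kp_le (B : Finset ι) : kp l W B ≤ finrank ℝ W := by
  rw [← kp_empty (l := l) (W := W)]
  exact kp_mono (Finset.empty_subset _)

theorem Zr_eq {B D : Finset ι} (h : B ⊆ D) (hk : kp l W B ≤ kp l W D) : Zr l W D = Zr l W B :=
  Submodule.eq_of_le_of_finrank_le (Zr_mono h) hk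

theorem kp_super (B D : Finset ι) : kp l W B + kp l W D ≤ kp l W (B ∪ D) + kp l W (B ∩ D) := by
  have h1 : Zr l W (B ∪ D) = Zr l W B ⊓ Zr l W D := by
    ext v
    simp only [mem_Zr, Submodule.mem_inf, Finset.mem_union]
    constructor
    · rintro ⟨h, h2⟩
      exact ⟨⟨h, fun i hi => h2 i (Or.inl hi)⟩, h, fun i hi => h2 i (Or.inr hi)⟩
    · rintro ⟨⟨h, h2⟩, -, h3⟩
      exact ⟨h, fun i hi => hi.elim (h2 i) (h3 i)⟩
  have h2 : Zr l W B ⊔ Zr l W D ≤ Zr l W (B ∩ D) :=
    sup_le (Zr_mono Finset.inter_subset_left) (Zr_mono Finset.inter_subset_right)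
  have h3 := Submodule.finrank_sup_add_finrank_inf_eq (Zr l W B) (Zr l W D)
  have h4 := Submodule.finrank_mono h2
  unfold kp
  rw [h1]
  omega

/-- adding one form -/
theorem kp_insert (B : Finset ι) (e : ι) : kp l W B ≤ kp l W (insert e B) + 1 := by
  have h1 : Zr l W (insert e B) = Zr l W B ⊓ LinearMap.ker (l e) := by
    ext v
    simp only [mem_Zr, Submodule.mem_inf, Finset.mem_insert, LinearMap.mem_ker]
    constructor
    · rintro ⟨h, h2⟩
      exact ⟨⟨h, fun i hi => h2 i (Or.inr hi)⟩, h2 e (Or.inl rfl)⟩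
    · rintro ⟨⟨h, h2⟩, h3⟩
      refine ⟨h, fun i hi => ?_⟩
      rcases hi with rfl | hi
      · exact h3
      · exact h2 i hi
  have h3 := Submodule.finrank_sup_add_finrank_inf_eq (Zr l W B) (LinearMap.ker (l e))
  have h4 := Submodule.finrank_le (Zr l W B ⊔ LinearMap.ker (l e))
  have h5 := LinearMap.finrank_range_add_finrank_ker (l e)
  have h6 : finrank ℝ (LinearMap.range (l e)) ≤ 1 := by
    have := Submodule.finrank_le (LinearMap.range (l e))
    rwa [finrank_self] at this
  unfold kp
  rw [h1]
  omega

/-- `A` is irreducible on `W`. -/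
def Irr (l : ι → V →ₗ[ℝ] ℝ) (W : Submodule ℝ V) (A : Finset ι) : Prop :=
  kp l W A < finrank ℝ W ∧ ∀ B, B ⊆ A → B.Nonempty → B ≠ A →
    kp l W B + kp l W (A \ B) < finrank ℝ W + kp l W A

theorem exists_ne_of_kp {B : Finset ι} (h : kp l W B < finrank ℝ W) : ∃ i ∈ B, ∃ v ∈ W, l i v ≠ 0 := by
  by_contra hcon
  push Not at hcon
  have h1 : Zr l W B = W := by
    ext v
    rw [mem_Zr]
    exact ⟨fun h => h.1, fun h => ⟨h, fun i hi => hcon i hi v h⟩⟩
  unfold kp at h
  rw [h1] at h
  exact lt_irrefl _ h

/-- no loops -/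
theorem Irr.noloop {A : Finset ι} (hA : Irr l W A) {i : ι} (hi : i ∈ A) : kp l W {i} < finrank ℝ W := by
  by_cases h : A = {i}
  · rw [← h]; exact hA.1
  · have h1 := hA.2 {i} (Finset.singleton_subset_iff.2 hi) (Finset.singleton_nonempty i) (fun h' => h h'.symm)
    have h2 : kp l W A ≤ kp l W (A \ {i}) := kp_mono Finset.sdiff_subset
    omega

theorem Irr.exists_ne {A : Finset ι} (hA : Irr l W A) {i : ι} (hi : i ∈ A) : ∃ v ∈ W, l i v ≠ 0 := by
  obtain ⟨j, hj, v, hv, h⟩ := exists_ne_of_kp (hA.noloop hi)
  rw [Finset.mem_singleton] at hj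
  subst hj
  exact ⟨v, hv, h⟩

/-- no coloops -/
theorem Irr.nocoloop {A : Finset ι} (hA : Irr l W A) {e : ι} (he : e ∈ A) (hne : A ≠ {e}) :
    Zr l W (A.erase e) = Zr l W A := by
  have h1 := hA.2 {e} (Finset.singleton_subset_iff.2 he) (Finset.singleton_nonempty e) (fun h' => hne h'.symm)
  rw [Finset.sdiff_singleton_eq_erase] at h1
  have h2 := kp_insert (l := l) (W := W) ∅ e
  rw [kp_empty, insert_empty_eq] at h2
  exact (Zr_eq (Finset.erase_subset e A) (by omega)).symm

/-- perturbation of a vector -/
theorem perturb (A : Finset ι) (v0 u : V) (h0 : ∀ i ∈ A, l i v0 ≠ 0) :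
    ∃ ε : ℝ, 0 < ε ∧ ∀ i ∈ A, 0 < l i v0 * l i (v0 + ε • u) := by
  induction A using Finset.induction_on with
  | empty => exact ⟨1, one_pos, by simp⟩
  | @insert a A ha ih =>
    obtain ⟨ε, hε, h⟩ := ih fun i hi => h0 i (Finset.mem_insert_of_mem hi)
    have hne := h0 a (Finset.mem_insert_self a A)
    have hpos : 0 < l a v0 * l a v0 := mul_self_pos.2 hne
    set M : ℝ := |l a v0 * l a u| + 1 with hM
    have hM0 : 0 < M := by positivity
    refine ⟨min ε (l a v0 * l a v0 / (2 * M)), lt_min hε (by positivity), fun i hi => ?_⟩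
    set η := min ε (l a v0 * l a v0 / (2 * M)) with hη
    have hη0 : 0 < η := lt_min hε (by positivity)
    rw [Finset.mem_insert] at hi
    rcases hi with rfl | hi
    · rw [map_add, map_smul, smul_eq_mul, mul_add]
      have h1 : η ≤ l i v0 * l i v0 / (2 * M) := min_le_right _ _
      have h2 : |η * (l i v0 * l i u)| ≤ l i v0 * l i v0 / 2 := by
        rw [abs_mul, abs_of_pos hη0]
        calc η * |l i v0 * l i u| ≤ l i v0 * l i v0 / (2 * M) * M := by
              refine mul_le_mul h1 (by rw [hM]; linarith) (abs_nonneg _) (by positivity)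
          _ = l i v0 * l i v0 / 2 := by field_simp
      have h3 := neg_abs_le (η * (l i v0 * l i u))
      have h4 : l i v0 * (η * l i u) = η * (l i v0 * l i u) := by ring
      rw [h4]
      linarith
    · have h1 := h i hi
      have hli := h0 i (Finset.mem_insert_of_mem hi)
      have hp : 0 < l i v0 * l i v0 := mul_self_pos.2 hli
      have h2 : η ≤ ε := min_le_left _ _
      rw [map_add, map_smul, smul_eq_mul, mul_add] at h1 ⊢
      -- convexity
      have h3 : l i v0 * (η * l i u) = (η / ε) * (l i v0 * (ε * l i u)) := by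
        field_simp
      have h4 : η / ε ≤ 1 := (div_le_one hε).2 h2
      have h5 : 0 < η / ε := div_pos hη0 hε
      rw [h3]
      nlinarith

theorem sgn_trans {a b c : ℝ} (hab : 0 < a * b) (hbc : 0 ≤ b * c) : 0 ≤ a * c := by
  rcases lt_or_ge 0 a with ha | ha
  · have hb : 0 < b := by
      by_contra h
      push Not at h
      nlinarith
    have hc : 0 ≤ c := by
      by_contra h
      push Not at h
      nlinarith
    positivity
  · have ha' : a < 0 := lt_of_le_of_ne ha (by rintro rfl; simp at hab)
    have hb : b < 0 := by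
      by_contra h
      push Not at h
      nlinarith
    have hc : c ≤ 0 := by
      by_contra h
      push Not at h
      nlinarith
    nlinarith

/-- Tutte: deletion or contraction -/
theorem tutte {A : Finset ι} (hA : Irr l W A) {e : ι} (he : e ∈ A) (hne : A ≠ {e})
    (hdel : ¬ Irr l W (A.erase e)) : Irr l (Zr l W {e}) (A.erase e) := by
  have hk : ∀ B : Finset ι, kp l (Zr l W {e}) B = kp l W (insert e B) := by
    intro B
    unfold kp
    have : Zr l (Zr l W {e}) B = Zr l W (insert e B) := by
      ext v
      simp only [mem_Zr, Finset.mem_singleton, Finset.mem_insert, forall_eq]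
      constructor
      · rintro ⟨⟨h, h2⟩, h3⟩
        refine ⟨h, fun i hi => ?_⟩
        rcases hi with rfl | hi
        · exact h2
        · exact h3 i hi
      · rintro ⟨h, h2⟩
        exact ⟨⟨h, h2 e (Or.inl rfl)⟩, fun i hi => h2 i (Or.inr hi)⟩
    rw [this]
  have hins : insert e (A.erase e) = A := Finset.insert_erase he
  have hcol := hA.nocoloop he hne
  have hcolk : kp l W (A.erase e) = kp l W A := by unfold kp; rw [hcol]
  have hne' : (A.erase e).Nonempty := by
    rw [Finset.nonempty_iff_ne_empty]
    intro h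
    apply hne
    rw [← hins, h, insert_empty_eq]
  -- the partition of the deletion
  have hpart : ∃ B, B ⊆ A.erase e ∧ B.Nonempty ∧ B ≠ A.erase e ∧
      finrank ℝ W + kp l W A ≤ kp l W B + kp l W (A.erase e \ B) := by
    by_contra hcon
    push Not at hcon
    refine hdel ⟨by rw [hcolk]; exact hA.1, fun B h1 h2 h3 => ?_⟩
    rw [hcolk]
    exact hcon B h1 h2 h3
  obtain ⟨B1, hB1, hB1n, hB1ne, hB⟩ := hpart
  set B2 := A.erase e \ B1 with hB2
  have hB2n : B2.Nonempty := by
    rw [Finset.nonempty_iff_ne_empty]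
    intro h
    exact hB1ne (Finset.Subset.antisymm hB1 (Finset.sdiff_eq_empty_iff_subset.1 h))
  have hloop : ∀ B, B ⊆ A → B.Nonempty → kp l W B + 1 ≤ finrank ℝ W := by
    intro B h1 h2
    obtain ⟨i, hi⟩ := h2
    have := hA.noloop (h1 hi)
    have h3 := kp_mono (l := l) (W := W) (Finset.singleton_subset_iff.2 hi)
    omega
  have herA := Finset.erase_subset e A
  have hlB1 := hloop B1 (hB1.trans herA) hB1n
  have hlB2 := hloop B2 (Finset.sdiff_subset.trans herA) hB2n
  have hle := hA.noloop he
  have hle2 := kp_insert (l := l) (W := W) ∅ e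
  rw [kp_empty, insert_empty_eq] at hle2
  have hW' : finrank ℝ (Zr l W {e}) = kp l W {e} := rfl
  refine ⟨?_, ?_⟩
  · rw [hk, hins, hW']
    omega
  · intro C1 hC1 hC1n hC1ne
    set C2 := A.erase e \ C1 with hC2
    have hC2n : C2.Nonempty := by
      rw [Finset.nonempty_iff_ne_empty]
      intro h
      exact hC1ne (Finset.Subset.antisymm hC1 (Finset.sdiff_eq_empty_iff_subset.1 h))
    rw [hk, hk, hk, hins, hW']
    by_contra hcon
    push Not at hcon
    have heB1 : e ∉ B1 := fun h => (Finset.mem_erase.1 (hB1 h)).1 rfl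
    have heB2 : e ∉ B2 := fun h => (Finset.mem_erase.1 (Finset.mem_sdiff.1 h).1).1 rfl
    have heC1 : e ∉ C1 := fun h => (Finset.mem_erase.1 (hC1 h)).1 rfl
    have heC2 : e ∉ C2 := fun h => (Finset.mem_erase.1 (Finset.mem_sdiff.1 h).1).1 rfl
    -- general step
    have key : ∀ B B' C C' : Finset ι, B ⊆ A.erase e → B' = A.erase e \ B → C ⊆ A.erase e →
        C' = A.erase e \ C → e ∉ B → e ∉ B' → 
        finrank ℝ W + kp l W A ≤ kp l W B + kp l W B' →
        kp l W {e} + kp l W A ≤ kp l W (insert e C) + kp l W (insert e C') →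
        B ∩ C = ∅ ∨ B' ∩ C' = ∅ := by
      intro B B' C C' hB hB' hC hC' h1 h2 h3 h4
      by_contra hcon
      push Not at hcon
      obtain ⟨hn1, hn2⟩ := hcon
      have s1 := kp_super (l := l) (W := W) B (insert e C)
      have s2 := kp_super (l := l) (W := W) B' (insert e C')
      have i1 : B ∩ insert e C = B ∩ C := by
        rw [Finset.inter_insert_of_notMem h1]
      have i2 : B' ∩ insert e C' = B' ∩ C' := by
        rw [Finset.inter_insert_of_notMem h2]
      rw [i1] at s1
      rw [i2] at s2
      have p1 : A \ (B ∩ C) = B' ∪ insert e C' := by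
        ext x
        simp only [Finset.mem_sdiff, Finset.mem_inter, Finset.mem_union, Finset.mem_insert, hB', hC',
          Finset.mem_erase]
        constructor
        · rintro ⟨hx, hx2⟩
          by_cases hxe : x = e
          · exact Or.inr (Or.inl hxe)
          · by_cases hxB : x ∈ B
            · exact Or.inr (Or.inr ⟨⟨hxe, hx⟩, fun h => hx2 ⟨hxB, h⟩⟩)
            · exact Or.inl ⟨⟨hxe, hx⟩, hxB⟩
        · rintro (⟨⟨-, hx⟩, hx2⟩ | rfl | ⟨⟨-, hx⟩, hx2⟩)
          · exact ⟨hx, fun h => hx2 h.1⟩
          · exact ⟨he, fun h => h1 h.1⟩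
          · exact ⟨hx, fun h => hx2 h.2⟩
      have p2 : A \ (B' ∩ C') = B ∪ insert e C := by
        ext x
        simp only [Finset.mem_sdiff, Finset.mem_inter, Finset.mem_union, Finset.mem_insert, hB', hC',
          Finset.mem_erase]
        constructor
        · rintro ⟨hx, hx2⟩
          by_cases hxe : x = e
          · exact Or.inr (Or.inl hxe)
          · by_cases hxB : x ∈ B
            · exact Or.inl hxB
            · refine Or.inr (Or.inr ?_)
              by_contra hxC
              exact hx2 ⟨⟨⟨hxe, hx⟩, hxB⟩, ⟨hxe, hx⟩, hxC⟩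
        · rintro (hx | rfl | hx)
          · exact ⟨herA (hB hx), fun h => h.1.2 hx⟩
          · exact ⟨he, fun h => h.1.1.1 rfl⟩
          · exact ⟨herA (hC hx), fun h => h.2.2 hx⟩
      have q1 := hA.2 (B ∩ C) (Finset.inter_subset_left.trans (hB.trans herA))
        hn1 (by
          intro h
          have : e ∈ B ∩ C := by rw [h]; exact he
          exact h1 (Finset.mem_inter.1 this).1)
      have q2 := hA.2 (B' ∩ C') (by
          refine Finset.inter_subset_left.trans ?_
          rw [hB']
          exact Finset.sdiff_subset.trans herA)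
        hn2 (by
          intro h
          have : e ∈ B' ∩ C' := by rw [h]; exact he
          exact h2 (Finset.mem_inter.1 this).1)
      rw [p1] at q1
      rw [p2] at q2
      omega
    have hC2' : C1 = A.erase e \ C2 := by
      rw [hC2, Finset.sdiff_sdiff_eq_self hC1]
    have k1 := key B1 B2 C1 C2 hB1 hB2 hC1 hC2 heB1 heB2 hB hcon
    have k2 := key B1 B2 C2 C1 hB1 hB2 Finset.sdiff_subset hC2' heB1 heB2 hB (by rw [add_comm (kp l W (insert e C2))]; exact hcon)
    have cov : ∀ x ∈ A.erase e, (x ∈ B1 ∨ x ∈ B2) ∧ (x ∈ C1 ∨ x ∈ C2) := by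
      intro x hx
      constructor
      · by_cases h : x ∈ B1
        · exact Or.inl h
        · exact Or.inr (Finset.mem_sdiff.2 ⟨hx, h⟩)
      · by_cases h : x ∈ C1
        · exact Or.inl h
        · exact Or.inr (Finset.mem_sdiff.2 ⟨hx, h⟩)
    have nm : ∀ {X Y : Finset ι}, X ∩ Y = ∅ → ∀ x, x ∈ X → x ∈ Y → False := by
      intro X Y h x hx hy
      have : x ∈ X ∩ Y := Finset.mem_inter.2 ⟨hx, hy⟩
      rw [h] at this
      exact absurd this (Finset.notMem_empty x)
    rcases k1 with k1 | k1
    · rcases k2 with k2 | k2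
      · -- B1 empty
        obtain ⟨x, hx⟩ := hB1n
        rcases (cov x (hB1 hx)).2 with h | h
        · exact nm k1 x hx h
        · exact nm k2 x hx h
      · -- C1 empty : B1 ∩ C1 = ∅, B2 ∩ C1 = ∅
        obtain ⟨x, hx⟩ := hC1n
        rcases (cov x (hC1 hx)).1 with h | h
        · exact nm k1 x h hx
        · exact nm k2 x h hx
    · rcases k2 with k2 | k2
      · -- B2 ∩ C2 = ∅, B1 ∩ C2 = ∅
        obtain ⟨x, hx⟩ := hC2n
        rcases (cov x (Finset.mem_sdiff.1 hx).1).1 with h | h
        · exact nm k2 x h hx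
        · exact nm k1 x h hx
      · obtain ⟨x, hx⟩ := hB2n
        rcases (cov x (Finset.mem_sdiff.1 hx).1).2 with h | h
        · exact nm k2 x hx h
        · exact nm k1 x hx h

/-- **A chamber whose closure meets the hyperplane `h` only in the centre.** -/
theorem exists_chamber (l : ι → V →ₗ[ℝ] ℝ) : ∀ (n : ℕ) (W : Submodule ℝ V) (A : Finset ι), A.card = n →
    Irr l W A → ∀ h ∈ A, ∃ v0 ∈ W, (∀ i ∈ A, l i v0 ≠ 0) ∧
      ∀ v ∈ W, (∀ i ∈ A, 0 ≤ l i v0 * l i v) → l h v = 0 → ∀ i ∈ A, l i v = 0 := by
  intro n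
  induction n with
  | zero =>
    intro W A hA _ h hh
    rw [Finset.card_eq_zero] at hA
    subst hA
    exact absurd hh (Finset.notMem_empty h)
  | succ n ih =>
    intro W A hcard hA h hh
    by_cases hs : A = {h}
    · obtain ⟨v, hv, hne⟩ := hA.exists_ne hh
      subst hs
      refine ⟨v, hv, fun i hi => ?_, fun w _ _ hw i hi => ?_⟩
      · rw [Finset.mem_singleton] at hi; subst hi; exact hne
      · rw [Finset.mem_singleton] at hi; subst hi; exact hw
    · obtain ⟨e, he, heh⟩ : ∃ e ∈ A, e ≠ h := by
        by_contra hcon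
        push Not at hcon
        apply hs
        ext x
        rw [Finset.mem_singleton]
        exact ⟨fun hx => hcon x hx, fun hx => hx ▸ hh⟩
      have hne : A ≠ {e} := by
        rintro rfl
        exact heh (Finset.mem_singleton.1 hh).symm
      have hcol := hA.nocoloop he hne
      have hh' : h ∈ A.erase e := Finset.mem_erase.2 ⟨fun h' => heh h'.symm, hh⟩
      have hcard' : (A.erase e).card = n := by
        rw [Finset.card_erase_of_mem he, hcard]
        rfl
      obtain ⟨u, hu, hue⟩ := hA.exists_ne he
      by_cases hdel : Irr l W (A.erase e)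
      · obtain ⟨v1, hv1, h1, h2⟩ := ih W (A.erase e) hcard' hdel h hh'
        -- choose the direction
        obtain ⟨u', hu', hue'⟩ : ∃ u' ∈ W, 0 < l e u' := by
          rcases lt_or_gt_of_ne hue with h | h
          · exact ⟨-u, W.neg_mem hu, by rw [map_neg]; linarith⟩
          · exact ⟨u, hu, h⟩
        -- direction with the sign of `l e v1`
        obtain ⟨u'', hu'', hpos⟩ : ∃ u'' ∈ W, 0 ≤ l e v1 * l e u'' ∧ l e u'' ≠ 0 := by
          rcases le_or_gt 0 (l e v1) with h | h
          · exact ⟨u', hu', mul_nonneg h hue'.le, hue'.ne'⟩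
          · refine ⟨-u', W.neg_mem hu', ?_, ?_⟩
            · rw [map_neg]; nlinarith
            · rw [map_neg]; exact neg_ne_zero.2 hue'.ne'
        obtain ⟨ε, hε, hp⟩ := perturb (l := l) (A.erase e) v1 u'' h1
        refine ⟨v1 + ε • u'', W.add_mem hv1 (W.smul_mem _ hu''), fun i hi => ?_, fun v hv hs hvh => ?_⟩
        · by_cases hie : i = e
          · subst hie
            rw [map_add, map_smul, smul_eq_mul]
            intro h0
            have h3 : l i v1 = -(ε * l i u'') := by linarith
            rw [h3] at hpos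
            have h4 : 0 < l i u'' * l i u'' := mul_self_pos.2 hpos.2
            have h5 := hpos.1
            nlinarith
          · have := hp i (Finset.mem_erase.2 ⟨hie, hi⟩)
            intro h0
            rw [h0, mul_zero] at this
            exact lt_irrefl _ this
        · have h3 := h2 v hv (fun i hi => sgn_trans (hp i hi) (hs i (Finset.erase_subset e A hi))) hvh
          have h4 : v ∈ Zr l W A := by
            rw [← hcol]
            exact mem_Zr.2 ⟨hv, h3⟩
          exact (mem_Zr.1 h4).2
      · have hcon := tutte hA he hne hdel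
        obtain ⟨v1, hv1, h1, h2⟩ := ih (Zr l W {e}) (A.erase e) hcard' hcon h hh'
        have hv1W : v1 ∈ W := (mem_Zr.1 hv1).1
        have hv1e : l e v1 = 0 := (mem_Zr.1 hv1).2 e (Finset.mem_singleton_self e)
        -- the two sides
        have hside : (∀ v ∈ W, (∀ i ∈ A.erase e, 0 ≤ l i v1 * l i v) → l h v = 0 → l e v ≤ 0) ∨
            (∀ v ∈ W, (∀ i ∈ A.erase e, 0 ≤ l i v1 * l i v) → l h v = 0 → 0 ≤ l e v) := by
          by_contra hcon2
          push Not at hcon2
          obtain ⟨⟨k1, hk1, hs1, hh1, he1⟩, ⟨k2, hk2, hs2, hh2, he2⟩⟩ := hcon2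
          have hz := h2 ((-(l e k2)) • k1 + (l e k1) • k2)
            (mem_Zr.2 ⟨W.add_mem (W.smul_mem _ hk1) (W.smul_mem _ hk2), fun i hi => by
              rw [Finset.mem_singleton] at hi
              subst hi
              rw [map_add, map_smul, map_smul, smul_eq_mul, smul_eq_mul]
              ring⟩)
            (fun i hi => by
              rw [map_add, map_smul, map_smul, smul_eq_mul, smul_eq_mul]
              have a1 := hs1 i hi
              have a2 := hs2 i hi
              have : l i v1 * (-(l e k2) * l i k1 + l e k1 * l i k2) =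
                (-(l e k2)) * (l i v1 * l i k1) + l e k1 * (l i v1 * l i k2) := by ring
              rw [this]
              have b1 : 0 < -(l e k2) := by linarith
              positivity)
            (by rw [map_add, map_smul, map_smul, hh1, hh2]; simp)
          have hk1Z : k1 ∈ Zr l W A := by
            rw [← hcol]
            refine mem_Zr.2 ⟨hk1, fun i hi => ?_⟩
            have a0 := hz i hi
            rw [map_add, map_smul, map_smul, smul_eq_mul, smul_eq_mul] at a0
            have a1 := hs1 i hi
            have a2 := hs2 i hi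
            have b1 : 0 < -(l e k2) := by linarith
            have c1 : (-(l e k2)) * (l i v1 * l i k1) + l e k1 * (l i v1 * l i k2) = 0 := by
              have : (-(l e k2)) * (l i v1 * l i k1) + l e k1 * (l i v1 * l i k2) =
                l i v1 * (-(l e k2) * l i k1 + l e k1 * l i k2) := by ring
              rw [this, a0, mul_zero]
            have c2 : 0 ≤ l e k1 * (l i v1 * l i k2) := by positivity
            have c3 : 0 ≤ (-(l e k2)) * (l i v1 * l i k1) := by positivity
            have c4 : (-(l e k2)) * (l i v1 * l i k1) = 0 := by linarith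
            rcases mul_eq_zero.1 c4 with h | h
            · exact absurd h b1.ne'
            · rcases mul_eq_zero.1 h with h | h
              · exact absurd h (h1 i hi)
              · exact h
          have := (mem_Zr.1 hk1Z).2 e he
          linarith
        -- construct
        have fin : ∀ u' ∈ W, l e u' ≠ 0 → (∀ v ∈ W, (∀ i ∈ A.erase e, 0 ≤ l i v1 * l i v) → l h v = 0 →
            0 ≤ l e u' * l e v → l e v = 0) → ∃ v0 ∈ W, (∀ i ∈ A, l i v0 ≠ 0) ∧
            ∀ v ∈ W, (∀ i ∈ A, 0 ≤ l i v0 * l i v) → l h v = 0 → ∀ i ∈ A, l i v = 0 := by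
          intro u' hu' hne' hz
          obtain ⟨ε, hε, hp⟩ := perturb (l := l) (A.erase e) v1 u' h1
          have hle : l e (v1 + ε • u') = ε * l e u' := by
            rw [map_add, map_smul, smul_eq_mul, hv1e, zero_add]
          refine ⟨v1 + ε • u', W.add_mem hv1W (W.smul_mem _ hu'), fun i hi => ?_,
            fun v hv hs hvh => ?_⟩
          · by_cases hie : i = e
            · subst hie
              rw [hle]
              exact mul_ne_zero hε.ne' hne'
            · have := hp i (Finset.mem_erase.2 ⟨hie, hi⟩)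
              intro h0
              rw [h0, mul_zero] at this
              exact lt_irrefl _ this
          · have hs' : ∀ i ∈ A.erase e, 0 ≤ l i v1 * l i v := fun i hi =>
              sgn_trans (hp i hi) (hs i (Finset.erase_subset e A hi))
            have hev : l e v = 0 := by
              refine hz v hv hs' hvh ?_
              have := hs e he
              rw [hle] at this
              by_contra hneg
              push Not at hneg
              nlinarith
            have h3 := h2 v (mem_Zr.2 ⟨hv, fun i hi => by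
              rw [Finset.mem_singleton] at hi; subst hi; exact hev⟩) hs' hvh
            intro i hi
            by_cases hie : i = e
            · subst hie; exact hev
            · exact h3 i (Finset.mem_erase.2 ⟨hie, hi⟩)
        obtain ⟨u', hu', hue'⟩ : ∃ u' ∈ W, 0 < l e u' := by
          rcases lt_or_gt_of_ne hue with h | h
          · exact ⟨-u, W.neg_mem hu, by rw [map_neg]; linarith⟩
          · exact ⟨u, hu, h⟩
        rcases hside with hside | hside
        · refine fin u' hu' hue'.ne' fun v hv hs hvh hsg => ?_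
          have a1 := hside v hv hs hvh
          by_contra hne2
          have a2 : l e v < 0 := lt_of_le_of_ne a1 hne2
          nlinarith
        · refine fin (-u') (W.neg_mem hu') (by rw [map_neg]; exact neg_ne_zero.2 hue'.ne')
            fun v hv hs hvh hsg => ?_
          have a1 := hside v hv hs hvh
          rw [map_neg] at hsg
          by_contra hne2
          have a2 : 0 < l e v := lt_of_le_of_ne a1 (fun h => hne2 h.symm)
          nlinarith

end Pool.Agent.H73.RA
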