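import Pool.Agent.H73.RA.Cone

set_option autoImplicit false
set_option linter.unusedVariables false
set_option linter.unusedSectionVars false

/-! # Local integrability of products of powers of linear functions -/

namespace Pool.Agent.H73.RA

open Module MeasureTheory Filter Topology Metric ENNReal

section scale

variable {E : Type} [NormedAddCommGroup E] [NormedSpace ℝ E] [FiniteDimensional ℝ E]
  [MeasurableSpace E] [BorelSpace E] (μ : Measure E) [μ.IsAddHaarMeasure]
  {K Y : Submodule ℝ E} (hKY : IsCompl K Y)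

/-- the coordinates -/
noncomputable def cK : E →ₗ[ℝ] K :=
  (LinearMap.fst ℝ K Y) ∘ₗ ((Submodule.prodEquivOfIsCompl K Y hKY).symm : E →ₗ[ℝ] K × Y)

noncomputable def cY : E →ₗ[ℝ] Y :=
  (LinearMap.snd ℝ K Y) ∘ₗ ((Submodule.prodEquivOfIsCompl K Y hKY).symm : E →ₗ[ℝ] K × Y)

omit [FiniteDimensional ℝ E] [MeasurableSpace E] [BorelSpace E] in
theorem cK_add_cY (x : E) : (cK hKY x : E) + (cY hKY x : E) = x := by
  have := (Submodule.prodEquivOfIsCompl K Y hKY).apply_symm_apply x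
  rw [Submodule.coe_prodEquivOfIsCompl'] at this
  exact this

omit [FiniteDimensional ℝ E] [MeasurableSpace E] [BorelSpace E] in
theorem coords (k : K) (y : Y) : cK hKY ((k : E) + y) = k ∧ cY hKY ((k : E) + y) = y := by
  have h : (Submodule.prodEquivOfIsCompl K Y hKY).symm ((k : E) + y) = (k, y) := by
    rw [LinearEquiv.symm_apply_eq, Submodule.coe_prodEquivOfIsCompl']
  unfold cK cY
  simp [h]

/-- the linear map `k + y ↦ k + c y` -/
noncomputable def TT (c : ℝ) : E →ₗ[ℝ] E :=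
  ((Submodule.prodEquivOfIsCompl K Y hKY : (K × Y) ≃ₗ[ℝ] E) : (K × Y) →ₗ[ℝ] E) ∘ₗ
    (LinearMap.prodMap LinearMap.id (c • LinearMap.id)) ∘ₗ
    ((Submodule.prodEquivOfIsCompl K Y hKY).symm : E →ₗ[ℝ] (K × Y))

omit [FiniteDimensional ℝ E] [MeasurableSpace E] [BorelSpace E] in
theorem TT_apply (c : ℝ) (x : E) : TT hKY c x = (cK hKY x : E) + c • (cY hKY x : E) := by
  unfold TT cK cY
  simp [Submodule.coe_prodEquivOfIsCompl']

omit [MeasurableSpace E] [BorelSpace E] in
theorem TT_det (c : ℝ) : LinearMap.det (TT hKY c) = c ^ finrank ℝ Y := by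
  unfold TT
  rw [LinearMap.det_conj, LinearMap.det_prodMap, LinearMap.det_id, one_mul, LinearMap.det_smul,
    LinearMap.det_id, mul_one]

omit [FiniteDimensional ℝ E] [MeasurableSpace E] [BorelSpace E] in
theorem cK_TT (c : ℝ) (x : E) : cK hKY (TT hKY c x) = cK hKY x := by
  rw [TT_apply]
  exact (coords hKY (cK hKY x) (c • cY hKY x)).1

omit [FiniteDimensional ℝ E] [MeasurableSpace E] [BorelSpace E] in
theorem cY_TT (c : ℝ) (x : E) : cY hKY (TT hKY c x) = c • cY hKY x := by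
  rw [TT_apply]
  exact (coords hKY (cK hKY x) (c • cY hKY x)).2

omit [FiniteDimensional ℝ E] [MeasurableSpace E] [BorelSpace E] in
theorem l_TT (l : E →ₗ[ℝ] ℝ) (hl : ∀ k ∈ K, l k = 0) (c : ℝ) (x : E) : l (TT hKY c x) = c * l x := by
  have h := cK_add_cY hKY x
  rw [TT_apply, map_add, map_smul, hl _ (cK hKY x).2, zero_add, smul_eq_mul]
  conv_rhs => rw [← h, map_add, hl _ (cK hKY x).2, zero_add]

theorem lint_TT {c : ℝ} (hc : 0 < c) (g : E → ℝ≥0∞) (hg : Measurable g) :
    ∫⁻ x, g x ∂μ = ENNReal.ofReal (c ^ finrank ℝ Y) * ∫⁻ x, g (TT hKY c x) ∂μ := by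
  have hd : LinearMap.det (TT hKY c) ≠ 0 := by rw [TT_det]; positivity
  have hm : Measurable (TT hKY c) := (LinearMap.continuous_of_finiteDimensional _).measurable
  have h1 : ∫⁻ x, g (TT hKY c x) ∂μ = ∫⁻ x, g x ∂(Measure.map (TT hKY c) μ) :=
    (lintegral_map hg hm).symm
  rw [h1, Measure.map_linearMap_addHaar_eq_smul_addHaar μ hd, lintegral_smul_measure, smul_eq_mul,
    ← mul_assoc, ← ENNReal.ofReal_mul (by positivity), TT_det, abs_of_pos (by positivity),
    mul_inv_cancel₀ (by positivity), ENNReal.ofReal_one, one_mul]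

theorem slint_TT {c : ℝ} (hc : 0 < c) (g : E → ℝ≥0∞) (hg : Measurable g) {A B : Set E}
    (hA : MeasurableSet A) (hB : MeasurableSet B) (hAB : ∀ x, TT hKY c x ∈ B ↔ x ∈ A) :
    ∫⁻ x in B, g x ∂μ = ENNReal.ofReal (c ^ finrank ℝ Y) * ∫⁻ x in A, g (TT hKY c x) ∂μ := by
  rw [← lintegral_indicator hB, lint_TT μ hKY hc _ (hg.indicator hB), ← lintegral_indicator hA]
  congr 1
  refine lintegral_congr fun x => ?_
  by_cases hx : x ∈ A
  · rw [Set.indicator_of_mem hx, Set.indicator_of_mem ((hAB x).2 hx)]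
  · rw [Set.indicator_of_notMem hx, Set.indicator_of_notMem (fun h => hx ((hAB x).1 h))]

/-- the boxes -/
def Box (δ : ℝ) : Set E := {x | ‖cK hKY x‖ ≤ δ ∧ ‖cY hKY x‖ ≤ δ}

/-- the shells -/
def Shl (δ : ℝ) (j : ℕ) : Set E :=
  {x | ‖cK hKY x‖ ≤ δ ∧ δ * (1 / 2 : ℝ) ^ (j + 1) < ‖cY hKY x‖ ∧ ‖cY hKY x‖ ≤ δ * (1 / 2) ^ j}

omit [MeasurableSpace E] [BorelSpace E] in
theorem cont_cK : Continuous fun x : E => ‖cK hKY x‖ :=
  (LinearMap.continuous_of_finiteDimensional (cK hKY)).norm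

omit [MeasurableSpace E] [BorelSpace E] in
theorem cont_cY : Continuous fun x : E => ‖cY hKY x‖ :=
  (LinearMap.continuous_of_finiteDimensional (cY hKY)).norm

theorem Box_meas (δ : ℝ) : MeasurableSet (Box hKY δ) :=
  (measurableSet_le (cont_cK hKY).measurable measurable_const).inter
    (measurableSet_le (cont_cY hKY).measurable measurable_const)

theorem Shl_meas (δ : ℝ) (j : ℕ) : MeasurableSet (Shl hKY δ j) :=
  (measurableSet_le (cont_cK hKY).measurable measurable_const).inter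
    ((measurableSet_lt measurable_const (cont_cY hKY).measurable).inter
    (measurableSet_le (cont_cY hKY).measurable measurable_const))

omit [MeasurableSpace E] [BorelSpace E] in
theorem Box_compact (δ : ℝ) : IsCompact (Box hKY δ) := by
  have h1 : IsCompact ((closedBall (0 : K) δ) ×ˢ (closedBall (0 : Y) δ)) :=
    (isCompact_closedBall _ _).prod (isCompact_closedBall _ _)
  have h2 : Continuous fun z : K × Y => (z.1 : E) + (z.2 : E) := by fun_prop
  have h3 := h1.image h2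
  refine h3.of_isClosed_subset ?_ ?_
  · exact (isClosed_le (cont_cK hKY) continuous_const).inter
      (isClosed_le (cont_cY hKY) continuous_const)
  · rintro x ⟨h4, h5⟩
    refine ⟨(cK hKY x, cY hKY x), ⟨?_, ?_⟩, cK_add_cY hKY x⟩
    · rw [mem_closedBall_zero_iff]; exact h4
    · rw [mem_closedBall_zero_iff]; exact h5

omit [MeasurableSpace E] [BorelSpace E] in
theorem Box_nhds {δ : ℝ} (hδ : 0 < δ) : Box hKY δ ∈ 𝓝 (0 : E) := by
  have h1 : {x : E | ‖cK hKY x‖ < δ ∧ ‖cY hKY x‖ < δ} ∈ 𝓝 (0 : E) := by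
    refine ((isOpen_lt (cont_cK hKY) continuous_const).inter
      (isOpen_lt (cont_cY hKY) continuous_const)).mem_nhds ?_
    constructor
    · change ‖cK hKY (0 : E)‖ < δ
      rw [map_zero, norm_zero]; exact hδ
    · change ‖cY hKY (0 : E)‖ < δ
      rw [map_zero, norm_zero]; exact hδ
  exact mem_of_superset h1 fun x hx => ⟨hx.1.le, hx.2.le⟩

omit [FiniteDimensional ℝ E] [MeasurableSpace E] [BorelSpace E] in
theorem Shl_iff (δ : ℝ) (j : ℕ) (x : E) : TT hKY (1 / 2) x ∈ Shl hKY δ (j + 1) ↔ x ∈ Shl hKY δ j := by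
  unfold Shl
  simp only [Set.mem_setOf_eq, cK_TT, cY_TT, norm_smul, Real.norm_eq_abs]
  rw [abs_of_pos (by norm_num : (0 : ℝ) < 1 / 2), pow_succ (1 / 2 : ℝ) (j + 1), pow_succ (1 / 2 : ℝ) j]
  constructor
  · rintro ⟨h1, h2, h3⟩
    exact ⟨h1, by linarith, by linarith⟩
  · rintro ⟨h1, h2, h3⟩
    exact ⟨h1, by linarith, by linarith⟩

omit [FiniteDimensional ℝ E] [MeasurableSpace E] [BorelSpace E] in
theorem Box_iff {δ : ℝ} (x : E) : TT hKY (1 / 2) x ∈ {z | ‖cK hKY z‖ ≤ δ ∧ ‖cY hKY z‖ ≤ δ / 2} ↔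
    x ∈ Box hKY δ := by
  unfold Box
  simp only [Set.mem_setOf_eq, cK_TT, cY_TT, norm_smul, Real.norm_eq_abs]
  rw [abs_of_pos (by norm_num : (0 : ℝ) < 1 / 2)]
  constructor
  · rintro ⟨h1, h2⟩
    exact ⟨h1, by linarith⟩
  · rintro ⟨h1, h2⟩
    exact ⟨h1, by linarith⟩

/-- **Finiteness on the box.** -/
theorem box_finite (hK : K ≠ ⊤) {δ : ℝ} (hδ : 0 < δ) (g : E → ℝ≥0∞) (hgm : Measurable g) (c : ℝ≥0∞)
    (hct : c ≠ ⊤) (hg : ∀ x, g (TT hKY (1 / 2) x) ≤ c * g x)
    (hlt : ENNReal.ofReal ((1 / 2 : ℝ) ^ finrank ℝ Y) * c < 1)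
    (h0 : ∫⁻ x in Shl hKY δ 0, g x ∂μ ≠ ⊤) : ∫⁻ x in Box hKY δ, g x ∂μ ≠ ⊤ := by
  set ρ : ℝ≥0∞ := ENNReal.ofReal ((1 / 2 : ℝ) ^ finrank ℝ Y) * c with hρ
  have hstep : ∀ j, ∫⁻ x in Shl hKY δ j, g x ∂μ ≤ ρ ^ j * ∫⁻ x in Shl hKY δ 0, g x ∂μ := by
    intro j
    induction j with
    | zero => simp
    | succ j ih =>
      rw [slint_TT μ hKY (by norm_num : (0 : ℝ) < 1 / 2) g hgm (Shl_meas hKY δ j)
        (Shl_meas hKY δ (j + 1)) (Shl_iff hKY δ j)]
      calc _ ≤ ENNReal.ofReal ((1 / 2 : ℝ) ^ finrank ℝ Y) * ∫⁻ x in Shl hKY δ j, c * g x ∂μ := by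
            gcongr with x
            exact hg x
        _ = ENNReal.ofReal ((1 / 2 : ℝ) ^ finrank ℝ Y) * (c * ∫⁻ x in Shl hKY δ j, g x ∂μ) := by
            rw [lintegral_const_mul' _ _ hct]
        _ = ρ * ∫⁻ x in Shl hKY δ j, g x ∂μ := by rw [hρ, mul_assoc]
        _ ≤ ρ * (ρ ^ j * ∫⁻ x in Shl hKY δ 0, g x ∂μ) := by gcongr
        _ = _ := by rw [pow_succ]; ring
  have hsub : Box hKY δ ⊆ (K : Set E) ∪ ⋃ j, Shl hKY δ j := by
    rintro x ⟨h1, h2⟩
    by_cases h : cY hKY x = 0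
    · left
      have h3 := cK_add_cY hKY x
      rw [h, Submodule.coe_zero, add_zero] at h3
      rw [← h3]
      exact (cK hKY x).2
    · right
      have hp : 0 < ‖cY hKY x‖ := norm_pos_iff.2 h
      have hp2 : 0 < ‖cY hKY x‖ / δ := div_pos hp hδ
      have h4 : ‖cY hKY x‖ / δ ≤ 1 := (div_le_one hδ).2 h2
      obtain ⟨j, h5, h6⟩ := exists_nat_pow_near_of_lt_one hp2 h4 (by norm_num : (0 : ℝ) < 1 / 2)
        (by norm_num)
      refine Set.mem_iUnion.2 ⟨j, h1, ?_, ?_⟩
      · rw [lt_div_iff₀ hδ] at h5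
        linarith
      · rw [div_le_iff₀ hδ] at h6
        linarith
  refine ne_of_lt ?_
  calc ∫⁻ x in Box hKY δ, g x ∂μ ≤ ∫⁻ x in (K : Set E) ∪ ⋃ j, Shl hKY δ j, g x ∂μ :=
        lintegral_mono_set hsub
    _ ≤ ∫⁻ x in (K : Set E), g x ∂μ + ∫⁻ x in ⋃ j, Shl hKY δ j, g x ∂μ := lintegral_union_le _ _ _
    _ = ∫⁻ x in ⋃ j, Shl hKY δ j, g x ∂μ := by
        rw [setLIntegral_measure_zero _ _ (Measure.addHaar_submodule μ K hK), zero_add]
    _ ≤ ∑' j, ∫⁻ x in Shl hKY δ j, g x ∂μ := lintegral_iUnion_le _ _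
    _ ≤ ∑' j, ρ ^ j * ∫⁻ x in Shl hKY δ 0, g x ∂μ := ENNReal.tsum_le_tsum hstep
    _ = (1 - ρ)⁻¹ * ∫⁻ x in Shl hKY δ 0, g x ∂μ := by
        rw [ENNReal.tsum_mul_right, ENNReal.tsum_geometric]
    _ < ⊤ := by
        refine ENNReal.mul_lt_top ?_ h0.lt_top
        rw [ENNReal.inv_lt_top]
        exact tsub_pos_of_lt hlt

/-- **Self-similarity.** -/
theorem box_self {δ : ℝ} (hδ : 0 < δ) (g : E → ℝ≥0∞) (hgm : Measurable g) (c : ℝ≥0∞) (hct : c ≠ ⊤)
    (hg : ∀ x, g (TT hKY (1 / 2) x) = c * g x) :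
    ∫⁻ x in Box hKY δ, g x ∂μ = ∫⁻ x in Shl hKY δ 0, g x ∂μ +
      ENNReal.ofReal ((1 / 2 : ℝ) ^ finrank ℝ Y) * (c * ∫⁻ x in Box hKY δ, g x ∂μ) := by
  have hm : MeasurableSet {z : E | ‖cK hKY z‖ ≤ δ ∧ ‖cY hKY z‖ ≤ δ / 2} :=
    (measurableSet_le (cont_cK hKY).measurable measurable_const).inter
    (measurableSet_le (cont_cY hKY).measurable measurable_const)
  have h1 := slint_TT μ hKY (by norm_num : (0 : ℝ) < 1 / 2) g hgm (Box_meas hKY δ) hm (Box_iff hKY)
  simp only [hg] at h1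
  rw [lintegral_const_mul' _ _ hct] at h1
  rw [← h1]
  have h2 : Box hKY δ = Shl hKY δ 0 ∪ {z : E | ‖cK hKY z‖ ≤ δ ∧ ‖cY hKY z‖ ≤ δ / 2} := by
    ext x
    simp only [Box, Shl, Set.mem_setOf_eq, Set.mem_union, zero_add, pow_one, pow_zero, mul_one]
    constructor
    · rintro ⟨h1, h2⟩
      by_cases h3 : ‖cY hKY x‖ ≤ δ / 2
      · exact Or.inr ⟨h1, h3⟩
      · push Not at h3
        exact Or.inl ⟨h1, by linarith, h2⟩
    · rintro (⟨h1, h2, h3⟩ | ⟨h1, h2⟩)
      · exact ⟨h1, h3⟩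
      · exact ⟨h1, by linarith⟩
  have h3 : Disjoint (Shl hKY δ 0) {z : E | ‖cK hKY z‖ ≤ δ ∧ ‖cY hKY z‖ ≤ δ / 2} := by
    rw [Set.disjoint_left]
    rintro x ⟨-, h4, -⟩ ⟨-, h5⟩
    simp only [zero_add, pow_one] at h4
    linarith
  rw [← lintegral_union hm h3, ← h2]

/-- finiteness on compact sets -/
theorem cpt_finite {Kc : Set E} (hKc : IsCompact Kc) (h : E → ℝ≥0∞) (Q : Set E)
    (hloc : ∀ x ∈ Kc, ∃ U ∈ 𝓝 x, ∫⁻ y in U ∩ Q, h y ∂μ < ⊤) : ∫⁻ y in Kc ∩ Q, h y ∂μ < ⊤ := by
  refine hKc.induction_on (p := fun s => ∫⁻ y in s ∩ Q, h y ∂μ < ⊤) ?_ ?_ ?_ ?_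
  · simp
  · intro s t hst ht
    exact lt_of_le_of_lt (lintegral_mono_set (Set.inter_subset_inter_left _ hst)) ht
  · intro s t hs ht
    rw [Set.union_inter_distrib_right]
    exact lt_of_le_of_lt (lintegral_union_le _ _ _) (ENNReal.add_lt_top.2 ⟨hs, ht⟩)
  · intro x hx
    obtain ⟨U, hU, h1⟩ := hloc x hx
    exact ⟨U, mem_nhdsWithin_of_mem_nhds hU, h1⟩

end scale

section prod

variable {ι E : Type} [DecidableEq ι] [NormedAddCommGroup E] [NormedSpace ℝ E] [FiniteDimensional ℝ E]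
  [MeasurableSpace E] [BorelSpace E] (μ : Measure E) [μ.IsAddHaarMeasure]
  (l : ι → E →ₗ[ℝ] ℝ) (e : ι → ℝ) (t : ι → ℝ)

/-- the product -/
noncomputable def GG (S : Finset ι) (x : E) : ℝ := ∏ i ∈ S, |l i x + e i| ^ (-(t i))

theorem GG_nonneg (S : Finset ι) (x : E) : 0 ≤ GG l e t S x :=
  Finset.prod_nonneg fun i _ => Real.rpow_nonneg (abs_nonneg _) _

theorem GG_meas (S : Finset ι) : Measurable (GG l e t S) := by
  unfold GG
  refine Finset.measurable_prod _ fun i _ => ?_
  have h : Measurable (l i) := (LinearMap.continuous_of_finiteDimensional _).measurable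
  exact ((h.add_const _).abs).pow_const _

/-- locally integrable at `p` -/
def LocI (S : Finset ι) (p : E) : Prop :=
  ∃ U ∈ 𝓝 p, ∫⁻ x in U, ENNReal.ofReal (GG l e t S x) ∂μ < ⊤

/-- the forms which do not vanish at `p` do not matter -/
theorem split (S : Finset ι) (p : E) (h : LocI μ l e t (S.filter fun i => l i p + e i = 0) p) :
    LocI μ l e t S p := by
  obtain ⟨U, hU, h1⟩ := h
  set R : E → ℝ := fun x => ∏ i ∈ S.filter (fun i => ¬ (l i p + e i = 0)), |l i x + e i| ^ (-(t i))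
    with hR
  have hcont : ContinuousAt R p := by
    rw [hR]
    refine tendsto_finset_prod _ fun i hi => ?_
    rw [Finset.mem_filter] at hi
    have hc : Continuous fun x : E => |l i x + e i| :=
      ((LinearMap.continuous_of_finiteDimensional (l i)).add continuous_const).abs
    exact (hc.continuousAt.rpow_const (Or.inl (abs_ne_zero.2 hi.2)))
  have hV : {x | R x < R p + 1} ∈ 𝓝 p := hcont.eventually (gt_mem_nhds (by linarith))
  obtain ⟨V, hVs, hVo, hVp⟩ := _root_.mem_nhds_iff.1 hV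
  have hR0 : ∀ x, 0 ≤ R x := fun x => Finset.prod_nonneg fun i _ => Real.rpow_nonneg (abs_nonneg _) _
  refine ⟨U ∩ V, inter_mem hU (hVo.mem_nhds hVp), ?_⟩
  calc ∫⁻ x in U ∩ V, ENNReal.ofReal (GG l e t S x) ∂μ
      ≤ ∫⁻ x in U ∩ V, ENNReal.ofReal (R p + 1) *
        ENNReal.ofReal (GG l e t (S.filter fun i => l i p + e i = 0) x) ∂μ := by
        have h5 : ∀ x ∈ V, ENNReal.ofReal (GG l e t S x) ≤ ENNReal.ofReal (R p + 1) *
            ENNReal.ofReal (GG l e t (S.filter fun i => l i p + e i = 0) x) := by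
          intro x hx
          have h2 : GG l e t S x = GG l e t (S.filter fun i => l i p + e i = 0) x * R x := by
            rw [hR]
            exact (Finset.prod_filter_mul_prod_filter_not _ _ _).symm
          rw [h2, mul_comm, ENNReal.ofReal_mul (hR0 x)]
          gcongr
          exact (hVs hx).le
        have h6 : (μ.restrict (U ∩ V)) ≤ (μ.restrict V) := Measure.restrict_mono Set.inter_subset_right le_rfl
        refine lintegral_mono_ae ?_
        have h7 : ∀ᵐ x ∂(μ.restrict V), ENNReal.ofReal (GG l e t S x) ≤ ENNReal.ofReal (R p + 1) *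
            ENNReal.ofReal (GG l e t (S.filter fun i => l i p + e i = 0) x) := by
          filter_upwards [ae_restrict_mem hVo.measurableSet] with x hx
          exact h5 x hx
        exact h7.filter_mono (MeasureTheory.ae_mono h6)
    _ = ENNReal.ofReal (R p + 1) * ∫⁻ x in U ∩ V,
        ENNReal.ofReal (GG l e t (S.filter fun i => l i p + e i = 0) x) ∂μ :=
        lintegral_const_mul' _ _ ENNReal.ofReal_ne_top
    _ < ⊤ := ENNReal.mul_lt_top ENNReal.ofReal_lt_top
        (lt_of_le_of_lt (lintegral_mono_set Set.inter_subset_left) h1)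

/-- the codimension -/
noncomputable def cdm (B : Finset ι) : ℝ := (finrank ℝ E : ℝ) - kp l ⊤ B

/-- the sum of the exponents -/
def tsm (B : Finset ι) : ℝ := ∑ i ∈ B, t i

theorem trans_loc (F : E → ℝ≥0∞) (p x : E) (h : ∃ U ∈ 𝓝 (p + x), ∫⁻ y in U, F y ∂μ < ⊤) :
    ∃ U ∈ 𝓝 x, ∫⁻ y in U, F (p + y) ∂μ < ⊤ := by
  obtain ⟨U, hU, h1⟩ := h
  refine ⟨(fun y => p + y) ⁻¹' U, (continuous_const.add continuous_id).continuousAt.preimage_mem_nhds hU, ?_⟩
  have h2 := (measurePreserving_add_left μ p).setLIntegral_comp_preimage_emb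
    (Homeomorph.addLeft p).measurableEmbedding F U
  rw [h2]
  exact h1

theorem GG_TT {K Y : Submodule ℝ E} (hKY : IsCompl K Y) (S : Finset ι) (hK : ∀ i ∈ S, ∀ k ∈ K, l i k = 0)
    (x : E) : GG l 0 t S (TT hKY (1 / 2) x) = (2 : ℝ) ^ tsm t S * GG l 0 t S x := by
  unfold GG tsm
  rw [Real.rpow_sum_of_pos (by norm_num), ← Finset.prod_mul_distrib]
  refine Finset.prod_congr rfl fun i hi => ?_
  simp only [Pi.zero_apply, add_zero]
  rw [l_TT hKY (l i) (hK i hi), abs_mul, abs_of_pos (by norm_num : (0 : ℝ) < 1 / 2),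
    Real.mul_rpow (by norm_num) (abs_nonneg _)]
  congr 1
  rw [one_div, Real.inv_rpow (by norm_num), Real.rpow_neg (by norm_num), inv_inv]

theorem finrank_compl {K Y : Submodule ℝ E} (hKY : IsCompl K Y) :
    (finrank ℝ Y : ℝ) = (finrank ℝ E : ℝ) - finrank ℝ K := by
  have h := Submodule.finrank_add_eq_of_isCompl hKY
  have h' : (finrank ℝ K : ℝ) + finrank ℝ Y = finrank ℝ E := by exact_mod_cast h
  linarith

theorem theta_lt {K Y : Submodule ℝ E} (hKY : IsCompl K Y) {τ : ℝ}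
    (h : τ < (finrank ℝ E : ℝ) - finrank ℝ K) :
    ENNReal.ofReal ((1 / 2 : ℝ) ^ finrank ℝ Y) * ENNReal.ofReal ((2 : ℝ) ^ τ) < 1 := by
  rw [← ENNReal.ofReal_mul (by positivity), ← ENNReal.ofReal_one]
  refine (ENNReal.ofReal_lt_ofReal_iff one_pos).2 ?_
  rw [← finrank_compl hKY] at h
  rw [one_div, inv_pow, ← Real.rpow_natCast, ← Real.rpow_neg (by norm_num), ← Real.rpow_add (by norm_num)]
  exact Real.rpow_lt_one_of_one_lt_of_neg (by norm_num) (by linarith)

/-- **Local integrability.** -/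
theorem locI_all (ht : ∀ i, 0 ≤ t i) : ∀ (n : ℕ) (S : Finset ι), S.card = n →
    (∀ B, B ⊆ S → B.Nonempty → tsm t B < cdm l B) → ∀ p, LocI μ l e t S p := by
  intro n
  induction n using Nat.strong_induction_on with
  | _ n ih =>
  intro S hcard hS
  -- points which are not on all the hyperplanes
  have hother : ∀ p, S.filter (fun i => l i p + e i = 0) ≠ S → LocI μ l e t S p := by
    intro p hp
    refine split μ l e t S p ?_
    have hss : S.filter (fun i => l i p + e i = 0) ⊂ S :=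
      (Finset.filter_subset _ _).ssubset_of_ne hp
    refine ih _ (by rw [← hcard]; exact Finset.card_lt_card hss) _ rfl ?_ p
    intro B hB hBn
    exact hS B (hB.trans hss.subset) hBn
  intro p
  by_cases hp : S.filter (fun i => l i p + e i = 0) = S
  · by_cases hSn : S.Nonempty
    · have hpi : ∀ i ∈ S, l i p + e i = 0 := by
        intro i hi
        rw [← hp] at hi
        exact (Finset.mem_filter.1 hi).2
      set K : Submodule ℝ E := Zr l ⊤ S with hK
      obtain ⟨Y, hKY⟩ := K.exists_isCompl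
      have hKl : ∀ i ∈ S, ∀ k ∈ K, l i k = 0 := fun i hi k hk => (mem_Zr.1 hk).2 i hi
      have hlt := hS S (Finset.Subset.refl S) hSn
      obtain ⟨i0, hi0⟩ := hSn
      have hKtop : K ≠ ⊤ := by
        intro h
        have h1 := hS {i0} (Finset.singleton_subset_iff.2 hi0) (Finset.singleton_nonempty i0)
        have h2 : cdm l {i0} = 0 := by
          unfold cdm kp
          have h3 : Zr l ⊤ {i0} = ⊤ := by
            rw [eq_top_iff]
            have h4 : K ≤ Zr l ⊤ {i0} := Zr_mono (Finset.singleton_subset_iff.2 hi0)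
            rwa [h] at h4
          rw [h3, finrank_top]
          ring
        rw [h2] at h1
        unfold tsm at h1
        rw [Finset.sum_singleton] at h1
        exact absurd (ht i0) (not_le.2 h1)
      have hkey : ∀ x, GG l e t S (p + x) = GG l 0 t S x := by
        intro x
        unfold GG
        refine Finset.prod_congr rfl fun i hi => ?_
        have := hpi i hi
        rw [map_add, Pi.zero_apply, add_zero]
        congr 2
        linarith
      have hmeas : Measurable fun x => ENNReal.ofReal (GG l 0 t S x) :=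
        (GG_meas l 0 t S).ennreal_ofReal
      have hfin : ∫⁻ x in Box hKY 1, ENNReal.ofReal (GG l 0 t S x) ∂μ ≠ ⊤ := by
        refine box_finite μ hKY hKtop one_pos _ hmeas (ENNReal.ofReal ((2 : ℝ) ^ tsm t S))
          ENNReal.ofReal_ne_top ?_ (theta_lt hKY hlt) ?_
        · intro x
          rw [GG_TT l t hKY S hKl, ENNReal.ofReal_mul (by positivity)]
        · refine ne_of_lt ?_
          have hc : IsCompact (Box hKY 1 ∩ {x | 1 / 2 ≤ ‖cY hKY x‖}) :=
            (Box_compact hKY 1).inter_right (isClosed_le continuous_const (cont_cY hKY))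
          have h1 := cpt_finite μ hc (fun x => ENNReal.ofReal (GG l 0 t S x)) Set.univ (by
            rintro x ⟨-, hx⟩
            rw [Set.mem_ofPred_eq] at hx
            have h2 : LocI μ l e t S (p + x) := by
              refine hother _ ?_
              intro h3
              have h4 : x ∈ K := by
                rw [hK, mem_Zr]
                refine ⟨Submodule.mem_top, fun i hi => ?_⟩
                have h5 := hpi i hi
                rw [← h3] at hi
                have h6 := (Finset.mem_filter.1 hi).2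
                rw [map_add] at h6
                linarith
              have h5 : cY hKY x = 0 := by
                have := (coords hKY ⟨x, h4⟩ 0).2
                simpa using this
              rw [h5, norm_zero] at hx
              norm_num at hx
            obtain ⟨U, hU, h3⟩ := trans_loc μ (fun x => ENNReal.ofReal (GG l e t S x)) p x h2
            refine ⟨U, hU, ?_⟩
            rw [Set.inter_univ]
            simpa only [hkey] using h3)
          refine lt_of_le_of_lt (lintegral_mono_set ?_) h1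
          rintro x ⟨h2, h3, h4⟩
          simp only [zero_add, pow_one, one_mul, pow_zero] at h3 h4
          exact ⟨⟨⟨h2, h4⟩, h3.le⟩, Set.mem_univ _⟩
      have h1 := trans_loc μ (fun x => ENNReal.ofReal (GG l e t S (p + x))) (-p) p (by
        refine ⟨Box hKY 1, ?_, ?_⟩
        · rw [neg_add_cancel]
          exact Box_nhds hKY one_pos
        · simp only [hkey]
          exact hfin.lt_top)
      obtain ⟨U, hU, h2⟩ := h1
      refine ⟨U, hU, ?_⟩
      refine lt_of_le_of_lt (le_of_eq (lintegral_congr fun y => ?_)) h2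
      rw [add_neg_cancel_left]
    · rw [Finset.not_nonempty_iff_eq_empty] at hSn
      subst hSn
      refine ⟨ball p 1, ball_mem_nhds p one_pos, ?_⟩
      have : ∀ x : E, ENNReal.ofReal (GG l e t ∅ x) = 1 := by
        intro x
        simp [GG]
      simp only [this, lintegral_const, one_mul, Measure.restrict_apply_univ]
      exact measure_ball_lt_top
  · exact hother p hp

end prod

end Pool.Agent.H73.RA
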